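import Mathlib
import Pool.Agent.H767R2.Relation

set_option autoImplicit false
set_option linter.unusedSectionVars false

namespace Pool.Agent.W681.NilRel

open Polynomial Pool.Agent.H767R2

section elim

variable {K : Type*} [Field K] [CharZero K]

/-- truncated exponential polynomial -/
noncomputable def eT (s : ℕ) (c : K) : K[X] := PowerSeries.trunc s (ex c)

theorem eT_eq (s : ℕ) (c : K) :
    eT s c = ∑ k ∈ Finset.range s, (c ^ k / (k.factorial : K)) • (X : K[X]) ^ k := by
  ext m
  rw [eT, PowerSeries.coeff_trunc, Polynomial.finsetSum_coeff]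
  simp only [Polynomial.coeff_smul, Polynomial.coeff_X_pow, smul_eq_mul, mul_ite, mul_one, mul_zero]
  rw [Finset.sum_ite_eq]
  simp only [Finset.mem_range]
  split_ifs with h
  · rw [coeff_ex, map_div₀, map_one, map_natCast, mul_one_div]
  · rfl

theorem eT_mul (s : ℕ) (x c : K) : X ^ s ∣ eT s x * eT s c - eT s (x + c) := by
  rw [Polynomial.X_pow_dvd_iff]
  intro k hk
  rw [Polynomial.coeff_sub, sub_eq_zero, Polynomial.coeff_mul]
  simp only [eT, PowerSeries.coeff_trunc, if_pos hk]
  rw [ex_add, PowerSeries.coeff_mul]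
  refine Finset.sum_congr rfl fun a ha => ?_
  rw [Finset.HasAntidiagonal.mem_antidiagonal] at ha
  rw [if_pos (by omega), if_pos (by omega)]

theorem const_of_deriv {r : K[X]} (h : derivative r = 0) : ∃ c : K, r = C c :=
  ⟨_, Polynomial.eq_C_of_natDegree_eq_zero (Polynomial.natDegree_eq_zero_of_derivative_eq_zero h)⟩

theorem zero_of_nat {r : K[X]} (h : ∀ y : ℕ, r.eval (y : K) = 0) : r = 0 := by
  have hinf : (Set.range (fun n : ℕ => (n : K))).Infinite :=
    Set.infinite_range_of_injective Nat.cast_injective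
  apply Polynomial.eq_of_infinite_eval_eq
  refine hinf.mono ?_
  rintro _ ⟨y, rfl⟩
  simpa using h y

theorem elim {ι : Type*} [Fintype ι] [DecidableEq ι] (s : ℕ) (p : ι → K[X])
    (hp : ∀ i j, i ≠ j → 0 < (p i - p j).natDegree)
    (LL : Submodule K (ι → K[X]))
    (hmul : ∀ (G : K[X]) (F : ι → K[X]), F ∈ LL → (fun i => G * F i) ∈ LL)
    (h1 : ∀ y : ℕ, (fun i => eT s ((p i).eval (y : K))) ∈ LL)
    (h2 : ∀ y : ℕ, (fun i => C ((derivative (p i)).eval (y : K)) * eT s ((p i).eval (y : K))) ∈ LL)
    (S : Finset ι) (i₀ : ι) (hi₀ : i₀ ∉ S) (n : ℕ) (hn : S.card = n + 1) :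
    ∃ F ∈ LL, (∀ i ∈ S, X ^ s ∣ F i) ∧ X ^ s ∣ (F i₀ - X ^ n) := by
  classical
  set S' := insert i₀ S with hS'
  let NN : Submodule K (ι → K[X]) :=
    { carrier := {F | ∀ i ∈ S', X ^ s ∣ F i}
      add_mem' := fun {a b} ha hb i hi => dvd_add (ha i hi) (hb i hi)
      zero_mem' := fun i _ => dvd_zero _
      smul_mem' := fun c F hF i hi => by
        rw [Pi.smul_apply, Polynomial.smul_eq_C_mul]
        exact Dvd.dvd.mul_left (hF i hi) _ }
  have hNN : ∀ F : ι → K[X], F ∈ NN ↔ ∀ i ∈ S', X ^ s ∣ F i := fun F => Iff.rfl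
  by_cases hmem : (Pi.single i₀ (X ^ n) : ι → K[X]) ∈ LL ⊔ NN
  · obtain ⟨F, hF, N, hN, hFN⟩ := Submodule.mem_sup.mp hmem
    refine ⟨F, hF, fun i hi => ?_, ?_⟩
    · have e := congrFun hFN i
      have hne : i ≠ i₀ := fun h => hi₀ (h ▸ hi)
      rw [Pi.add_apply, Pi.single_eq_of_ne hne] at e
      have h3 : F i = - N i := eq_neg_of_add_eq_zero_left e
      rw [h3]
      exact (dvd_neg).mpr (hN i (Finset.mem_insert_of_mem hi))
    · have e := congrFun hFN i₀
      rw [Pi.add_apply, Pi.single_eq_same] at e
      have h3 : F i₀ - X ^ n = - N i₀ := by rw [← e]; ring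
      rw [h3]
      exact (dvd_neg).mpr (hN i₀ (Finset.mem_insert_self _ _))
  · exfalso
    obtain ⟨φ, hφ, hφ0⟩ := Submodule.exists_dual_map_eq_bot_of_notMem hmem inferInstance
    have hφS : ∀ F ∈ LL ⊔ NN, φ F = 0 := by
      intro F hF
      have : φ F ∈ (LL ⊔ NN).map φ := Submodule.mem_map_of_mem hF
      rw [hφ0] at this
      exact (Submodule.mem_bot K).mp this
    have hφL : ∀ F ∈ LL, φ F = 0 := fun F hF => hφS F (Submodule.mem_sup_left hF)
    have hφN : ∀ F ∈ NN, φ F = 0 := fun F hF => hφS F (Submodule.mem_sup_right hF)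
    let ψ : ι → K[X] →ₗ[K] K := fun i => φ ∘ₗ LinearMap.single K (fun _ => K[X]) i
    have hψd : ∀ i G, ψ i G = φ (Pi.single i G) := fun i G => rfl
    have hψ : ∀ i G, X ^ s ∣ G → ψ i G = 0 := by
      intro i G hG
      rw [hψd]
      apply hφN
      rw [hNN]
      intro j _
      by_cases hij : j = i
      · subst hij; rw [Pi.single_eq_same]; exact hG
      · rw [Pi.single_eq_of_ne hij]; exact dvd_zero _
    have hψ' : ∀ i, i ∉ S' → ∀ G, ψ i G = 0 := by
      intro i hi G
      rw [hψd]
      apply hφN
      rw [hNN]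
      intro j hj
      have hij : j ≠ i := fun h => hi (h ▸ hj)
      rw [Pi.single_eq_of_ne hij]; exact dvd_zero _
    have hsum : ∀ F, φ F = ∑ i ∈ S', ψ i (F i) := by
      intro F
      have e : F = ∑ i, Pi.single i (F i) := (Finset.univ_sum_single F).symm
      conv_lhs => rw [e]
      rw [map_sum]
      symm
      apply Finset.sum_subset (Finset.subset_univ _)
      intro i _ hi
      exact hψ' i hi _
    let G : ι → K[X] := fun i => ∑ k ∈ Finset.range s, C (ψ i (X ^ k) / (k.factorial : K)) * X ^ k
    let Q : ι → K[X] := fun i =>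
      ∑ k ∈ Finset.range s, C (ψ i (X ^ k) / ((k + 1).factorial : K)) * X ^ (k + 1)
    have hQG : ∀ i, derivative (Q i) = G i := by
      intro i
      simp only [Q, G]
      rw [Polynomial.derivative_sum]
      refine Finset.sum_congr rfl fun k _ => ?_
      rw [Polynomial.derivative_C_mul_X_pow, Nat.add_sub_cancel]
      congr 2
      rw [Nat.factorial_succ]
      have e1 : (k.factorial : K) ≠ 0 := by exact_mod_cast k.factorial_ne_zero
      have e2 : ((k : K) + 1) ≠ 0 := by exact_mod_cast Nat.succ_ne_zero k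
      push_cast
      field_simp
    have hG : ∀ i c, ψ i (eT s c) = (G i).eval c := by
      intro i c
      rw [eT_eq, map_sum]
      simp only [G]
      rw [Polynomial.eval_finsetSum]
      refine Finset.sum_congr rfl fun k _ => ?_
      rw [map_smul, Polynomial.eval_mul, Polynomial.eval_C, Polynomial.eval_pow, Polynomial.eval_X,
        smul_eq_mul]
      ring
    have R1 : ∀ (x : K) (y : ℕ), ∑ i ∈ S', (G i).eval (x + (p i).eval (y : K)) = 0 := by
      intro x y
      have e := hφL _ (hmul (eT s x) _ (h1 y))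
      rw [hsum] at e
      rw [← e]
      refine Finset.sum_congr rfl fun i _ => ?_
      rw [← hG]
      have e3 := hψ i _ (eT_mul s x ((p i).eval (y : K)))
      rw [map_sub, sub_eq_zero] at e3
      exact e3.symm
    have R2 : ∀ (y : ℕ), ∑ i ∈ S', (derivative (p i)).eval (y : K) * (G i).eval ((p i).eval (y : K)) = 0 := by
      intro y
      have e := hφL _ (h2 y)
      rw [hsum] at e
      rw [← e]
      refine Finset.sum_congr rfl fun i _ => ?_
      rw [← hG, ← Polynomial.smul_eq_C_mul, map_smul, smul_eq_mul]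
    -- the constant
    obtain ⟨c, hc⟩ : ∃ c : K, ∑ i ∈ S', (Q i).comp (p i) = C c := by
      apply const_of_deriv
      apply zero_of_nat
      intro y
      rw [Polynomial.derivative_sum, Polynomial.eval_finsetSum, ← R2 y]
      refine Finset.sum_congr rfl fun i _ => ?_
      rw [Polynomial.derivative_comp, hQG, Polynomial.eval_mul, Polynomial.eval_comp]
    have hcy : ∀ y : ℕ, ∑ i ∈ S', (Q i).eval ((p i).eval (y : K)) = c := by
      intro y
      have e := congrArg (fun q => Polynomial.eval (y : K) q) hc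
      simpa [Polynomial.eval_finsetSum, Polynomial.eval_comp] using e
    have hrel : ∀ (x y : ℕ), ∑ i ∈ S', (Q i).eval ((x : K) + (p i).eval (y : K)) = c := by
      intro x y
      obtain ⟨c', hc'⟩ : ∃ c' : K, ∑ i ∈ S', (Q i).comp (X + C ((p i).eval (y : K))) = C c' := by
        apply const_of_deriv
        apply zero_of_nat
        intro z
        rw [Polynomial.derivative_sum, Polynomial.eval_finsetSum, ← R1 (z : K) y]
        refine Finset.sum_congr rfl fun i _ => ?_
        rw [Polynomial.derivative_comp, hQG, Polynomial.eval_mul, Polynomial.eval_comp]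
        simp
      have e1 := congrArg (fun q => Polynomial.eval (x : K) q) hc'
      have e0 := congrArg (fun q => Polynomial.eval (0 : K) q) hc'
      simp only [Polynomial.eval_finsetSum, Polynomial.eval_comp, Polynomial.eval_add,
        Polynomial.eval_X, Polynomial.eval_C, zero_add] at e1 e0
      rw [e1, ← e0, hcy]
    -- apply the degree bound
    set Q' : ι → K[X] := fun i => if i = i₀ then Q i - C c else Q i with hQ'
    have hrel' : ∀ x y : ℕ, ∑ i ∈ S', (Q' i).eval ((x : K) + (p i).eval (y : K)) = 0 := by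
      intro x y
      have e := hrel x y
      have hi0 : i₀ ∈ S' := Finset.mem_insert_self _ _
      rw [← Finset.add_sum_erase _ _ hi0] at e ⊢
      have e2 : ∑ i ∈ S'.erase i₀, (Q' i).eval ((x : K) + (p i).eval (y : K))
          = ∑ i ∈ S'.erase i₀, (Q i).eval ((x : K) + (p i).eval (y : K)) := by
        refine Finset.sum_congr rfl fun i hi => ?_
        rw [hQ']
        simp only [if_neg (Finset.ne_of_mem_erase hi)]
      rw [e2]
      rw [hQ']
      simp only [if_true, Polynomial.eval_sub, Polynomial.eval_C]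
      linear_combination e
    have hcoef : (Q' i₀).coeff (n + 1) ≠ 0 := by
      have e1 : Q' i₀ = Q i₀ - C c := by rw [hQ']; simp
      rw [e1, Polynomial.coeff_sub, Polynomial.coeff_C, if_neg (Nat.succ_ne_zero n), sub_zero]
      have hns : n < s := by
        by_contra hns
        apply hφ
        rw [← hψd]
        exact hψ i₀ _ (pow_dvd_pow _ (by omega))
      have e2 : (Q i₀).coeff (n + 1) = ψ i₀ (X ^ n) / ((n + 1).factorial : K) := by
        simp only [Q, Polynomial.finsetSum_coeff, Polynomial.coeff_C_mul, Polynomial.coeff_X_pow]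
        rw [Finset.sum_eq_single n]
        · simp
        · intro b _ hb
          rw [if_neg (by omega), mul_zero]
        · intro h
          exact absurd (Finset.mem_range.mpr hns) h
      rw [e2]
      refine div_ne_zero ?_ (by exact_mod_cast (n + 1).factorial_ne_zero)
      rw [hψd]
      exact hφ
    have hne : Q' i₀ ≠ 0 := by
      intro h0
      rw [h0, Polynomial.coeff_zero] at hcoef
      exact hcoef rfl
    have hdeg := relation_degree S' p Q' (fun i _ j _ hij => hp i j hij) hrel' i₀
      (Finset.mem_insert_self _ _) hne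
    rw [hS', Finset.card_insert_of_notMem hi₀, hn] at hdeg
    have hdeg2 := Polynomial.le_natDegree_of_ne_zero hcoef
    omega

end elim

section lie

variable {K : Type*} [Field K] {L : Type*} [LieRing L] [LieAlgebra K L]

/-- The filtration `𝔤 = gSer D 0 ⊇ gSer D 1 ⊇ …`, `gSer D (k+1) = [𝔤, gSer D k] + D (gSer D k)`. -/
def gSer (D : LieDerivation K L L) : ℕ → Submodule K L
  | 0 => ⊤
  | k + 1 => Submodule.span K
      ({z | ∃ x : L, ∃ y ∈ gSer D k, z = ⁅x, y⁆} ∪ {z | ∃ y ∈ gSer D k, z = D y})

/-- `e^{cD} x = ∑_k c^k/k! D^k x` (a finite sum when `D` is nilpotent). -/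
noncomputable def expD (D : LieDerivation K L L) (c : K) (x : L) : L :=
  ∑ᶠ k : ℕ, (c ^ k / (k.factorial : K)) • ((⇑D)^[k] x)

theorem iter_mem (D : LieDerivation K L L) (k : ℕ) (x : L) : (⇑D)^[k] x ∈ gSer D k := by
  induction k with
  | zero => exact Submodule.mem_top
  | succ k ih =>
    rw [Function.iterate_succ_apply']
    exact Submodule.subset_span (Or.inr ⟨_, ih, rfl⟩)

/-- nested words `[D^{q₁}x₁, [D^{q₂}x₂, …, D^{q_r}x_r]]` -/
def wval (D : LieDerivation K L L) (z : ℕ × L) : List (ℕ × L) → L
  | [] => (⇑D)^[z.1] z.2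
  | a :: l => ⁅(⇑D)^[a.1] a.2, wval D z l⁆

/-- their weight `∑ (q_j + 1)` -/
def wt (z : ℕ × L) : List (ℕ × L) → ℕ
  | [] => z.1 + 1
  | a :: l => (a.1 + 1) + wt z l

def words (D : LieDerivation K L L) (w : ℕ) : Submodule K L :=
  Submodule.span K {v | ∃ (z : ℕ × L) (l : List (ℕ × L)), wt z l = w ∧ v = wval D z l}

theorem bracket_words (D : LieDerivation K L L) (q : ℕ) (x : L) (w : ℕ) (v : L)
    (hv : v ∈ words D w) : ⁅(⇑D)^[q] x, v⁆ ∈ words D (q + 1 + w) := by
  unfold words at hv
  induction hv using Submodule.span_induction with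
  | mem v hv =>
    obtain ⟨z, l, hw, rfl⟩ := hv
    exact Submodule.subset_span ⟨z, (q, x) :: l, by rw [wt, hw], rfl⟩
  | zero => rw [lie_zero]; exact Submodule.zero_mem _
  | add a b _ _ ha hb => rw [lie_add]; exact Submodule.add_mem _ ha hb
  | smul c a _ ha => rw [lie_smul]; exact Submodule.smul_mem _ c ha

theorem D_word (D : LieDerivation K L L) (z : ℕ × L) (l : List (ℕ × L)) :
    D (wval D z l) ∈ words D (wt z l + 1) := by
  induction l with
  | nil =>
    rw [wval, wt, ← Function.iterate_succ_apply' (⇑D)]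
    exact Submodule.subset_span ⟨(z.1 + 1, z.2), [], rfl, rfl⟩
  | cons a l ih =>
    rw [wval, LieDerivation.apply_lie_eq_add, wt]
    refine Submodule.add_mem _ ?_ ?_
    · have := bracket_words D a.1 a.2 _ _ ih
      rwa [← add_assoc] at this
    · rw [← Function.iterate_succ_apply' (⇑D)]
      refine Submodule.subset_span ⟨z, (a.1 + 1, a.2) :: l, ?_, rfl⟩
      rw [wt]; ring

theorem D_words (D : LieDerivation K L L) (w : ℕ) (v : L) (hv : v ∈ words D w) :
    D v ∈ words D (w + 1) := by
  unfold words at hv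
  induction hv using Submodule.span_induction with
  | mem v hv =>
    obtain ⟨z, l, hw, rfl⟩ := hv
    rw [← hw]
    exact D_word D z l
  | zero => rw [map_zero]; exact Submodule.zero_mem _
  | add a b _ _ ha hb => rw [map_add]; exact Submodule.add_mem _ ha hb
  | smul c a _ ha => rw [map_smul]; exact Submodule.smul_mem _ c ha

theorem gSer_le_words (D : LieDerivation K L L) (k : ℕ) : gSer D k ≤ words D (k + 1) := by
  induction k with
  | zero =>
    intro x _
    exact Submodule.subset_span ⟨(0, x), [], rfl, rfl⟩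
  | succ k ih =>
    rw [gSer, Submodule.span_le]
    rintro z (⟨x, y, hy, rfl⟩ | ⟨y, hy, rfl⟩)
    · have := bracket_words D 0 x _ _ (ih hy)
      have e : 0 + 1 + (k + 1) = k + 1 + 1 := by ring
      rw [e] at this
      exact this
    · exact D_words D _ _ (ih hy)

end lie

section main

variable {K : Type*} [Field K] [CharZero K] {L : Type*} [LieRing L] [LieAlgebra K L]

theorem main {ι : Type*} [Fintype ι] [DecidableEq ι] (D : LieDerivation K L L) (s : ℕ)
    (hs : gSer D s = ⊥) (p : ι → K[X]) (hp : ∀ i j, i ≠ j → 0 < (p i - p j).natDegree)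
    (ℓ : ℕ) (hℓ : Fintype.card ι = ℓ + 2) (h : Submodule K (ι → L))
    (h0 : ∀ u ∈ h, ∀ v ∈ h, (fun i => ⁅u i, v i⁆) ∈ h)
    (h1 : ∀ (y : ℕ) (x : L), (fun i => expD D ((p i).eval (y : K)) x) ∈ h)
    (h2 : ∀ (y : ℕ) (x : L), (fun i => (derivative (p i)).eval (y : K) •
      expD D ((p i).eval (y : K)) x) ∈ h)
    (i₀ : ι) (z : L) (hz : z ∈ gSer D ℓ) : (Pi.single i₀ z : ι → L) ∈ h := by
  classical
  have hDs : ∀ x : L, (⇑D)^[s] x = 0 := by
    intro x
    have := iter_mem D s x
    rw [hs] at this
    exact (Submodule.mem_bot K).mp this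
  have hDk : ∀ k, s ≤ k → ∀ x : L, (⇑D)^[k] x = 0 := by
    intro k hk x
    obtain ⟨j, rfl⟩ := Nat.exists_eq_add_of_le hk
    rw [Function.iterate_add_apply]
    exact hDs _
  let T : Module.End K L := (D : L →ₗ[K] L)
  have hTk : ∀ k x, (T ^ k) x = (⇑D)^[k] x := by
    intro k x
    rw [Module.End.pow_apply]
    rfl
  have hexp : ∀ c x, expD D c x = aeval T (eT s c) x := by
    intro c x
    rw [eT_eq, map_sum, LinearMap.sum_apply, expD]
    rw [finsum_eq_sum_of_support_subset (s := Finset.range s)]
    · refine Finset.sum_congr rfl fun k _ => ?_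
      rw [map_smul, map_pow, aeval_X, LinearMap.smul_apply, hTk]
    · intro k hk
      rw [Function.mem_support] at hk
      rw [Finset.mem_coe, Finset.mem_range]
      by_contra hks
      exact hk (by rw [hDk k (by omega), smul_zero])
  have hdvd : ∀ F : K[X], X ^ s ∣ F → ∀ x, aeval T F x = 0 := by
    rintro F ⟨G, rfl⟩ x
    rw [map_mul, map_pow, aeval_X, Module.End.mul_apply, hTk, hDs]
  let LL : Submodule K (ι → K[X]) :=
    { carrier := {F | ∀ x : L, (fun i => aeval T (F i) x) ∈ h}
      add_mem' := by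
        intro a b ha hb x
        have e := h.add_mem (ha x) (hb x)
        have e2 : (fun i => aeval T ((a + b) i) x)
            = (fun i => aeval T (a i) x) + (fun i => aeval T (b i) x) := by
          funext i
          rw [Pi.add_apply, map_add, LinearMap.add_apply, Pi.add_apply]
        rw [e2]
        exact e
      zero_mem' := by
        intro x
        have e2 : (fun i => aeval T ((0 : ι → K[X]) i) x) = 0 := by
          funext i
          rw [Pi.zero_apply, map_zero, LinearMap.zero_apply, Pi.zero_apply]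
        rw [e2]
        exact h.zero_mem
      smul_mem' := by
        intro c a ha x
        have e := h.smul_mem c (ha x)
        have e2 : (fun i => aeval T ((c • a) i) x) = c • (fun i => aeval T (a i) x) := by
          funext i
          rw [Pi.smul_apply, map_smul, LinearMap.smul_apply, Pi.smul_apply]
        rw [e2]
        exact e }
  have hLL : ∀ F : ι → K[X], F ∈ LL ↔ ∀ x : L, (fun i => aeval T (F i) x) ∈ h := fun F => Iff.rfl
  -- the elimination lemma
  have key : ∀ (S : Finset ι), i₀ ∉ S → ∀ n, S.card = n + 1 → ∀ x : L,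
      ∃ v ∈ h, (∀ i ∈ S, v i = 0) ∧ v i₀ = (⇑D)^[n] x := by
    intro S hS n hn x
    obtain ⟨F, hF, hF1, hF2⟩ := elim s p hp LL
      (by
        intro G F hF
        rw [hLL] at hF ⊢
        intro x
        have e := hF (aeval T G x)
        have e2 : (fun i => aeval T (G * F i) x) = fun i => aeval T (F i) (aeval T G x) := by
          funext i
          rw [mul_comm, map_mul, Module.End.mul_apply]
        rw [e2]
        exact e)
      (by
        intro y
        rw [hLL]
        intro x
        have e := h1 y x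
        simp only [hexp] at e
        exact e)
      (by
        intro y
        rw [hLL]
        intro x
        have e := h2 y x
        simp only [hexp] at e
        have e2 : (fun i => aeval T (C ((derivative (p i)).eval (y : K)) *
            eT s ((p i).eval (y : K))) x) = fun i => (derivative (p i)).eval (y : K) •
            aeval T (eT s ((p i).eval (y : K))) x := by
          funext i
          rw [← Polynomial.smul_eq_C_mul, map_smul, LinearMap.smul_apply]
        rw [e2]
        exact e)
      S i₀ hS n hn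
    refine ⟨_, (hLL F).mp hF x, fun i hi => hdvd _ (hF1 i hi) x, ?_⟩
    have e := hdvd _ hF2 x
    rw [map_sub, LinearMap.sub_apply, sub_eq_zero, map_pow, aeval_X, hTk] at e
    exact e
  have key2 : ∀ (a : ℕ × L) (l : List (ℕ × L)) (S : Finset ι), i₀ ∉ S → S.card = wt a l →
      ∃ v ∈ h, (∀ i ∈ S, v i = 0) ∧ v i₀ = wval D a l := by
    intro a l
    induction l with
    | nil =>
      intro S hS hc
      exact key S hS a.1 hc a.2
    | cons b l ih =>
      intro S hS hc
      rw [wt] at hc
      obtain ⟨S1, hS1, hc1⟩ := Finset.exists_subset_card_eq (s := S) (n := b.1 + 1) (by omega)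
      obtain ⟨v, hv, hv1, hv2⟩ := key S1 (fun hh => hS (hS1 hh)) b.1 hc1 b.2
      obtain ⟨w, hw, hw1, hw2⟩ := ih (S \ S1) (fun hh => hS (Finset.sdiff_subset hh))
        (by rw [Finset.card_sdiff_of_subset hS1]; omega)
      refine ⟨_, h0 v hv w hw, fun i hi => ?_, ?_⟩
      · by_cases hi1 : i ∈ S1
        · change ⁅v i, w i⁆ = 0
          rw [hv1 i hi1, zero_lie]
        · change ⁅v i, w i⁆ = 0
          rw [hw1 i (Finset.mem_sdiff.mpr ⟨hi, hi1⟩), lie_zero]
      · change ⁅v i₀, w i₀⁆ = _
        rw [hv2, hw2, wval]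
  -- conclusion
  have hz' := gSer_le_words D ℓ hz
  unfold words at hz'
  clear hz
  induction hz' using Submodule.span_induction with
  | mem v hv =>
    obtain ⟨a, l, hw, rfl⟩ := hv
    obtain ⟨u, hu, hu1, hu2⟩ := key2 a l (Finset.univ.erase i₀) (Finset.notMem_erase _ _)
      (by rw [Finset.card_erase_of_mem (Finset.mem_univ _), Finset.card_univ, hℓ, hw]; omega)
    have e : Pi.single i₀ (wval D a l) = u := by
      funext i
      by_cases hi : i = i₀
      · subst hi
        rw [Pi.single_eq_same, hu2]
      · rw [Pi.single_eq_of_ne hi, hu1 i (Finset.mem_erase.mpr ⟨hi, Finset.mem_univ _⟩)]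
    rw [e]
    exact hu
  | zero => rw [Pi.single_zero]; exact h.zero_mem
  | add a b _ _ ha hb => rw [Pi.single_add]; exact h.add_mem ha hb
  | smul c a _ ha => rw [Pi.single_smul]; exact h.smul_mem c ha

end main

end Pool.Agent.W681.NilRel
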