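import Mathlib
import Pool.Agent.W681.NilRel

set_option autoImplicit false
set_option linter.unusedSectionVars false

namespace Pool.Agent.W681.NilRel

open Polynomial

section aut

variable {K : Type*} [Field K] [CharZero K] {L : Type*} [LieRing L] [LieAlgebra K L]

theorem expD_eq (D : LieDerivation K L L) (N : ℕ) (hN : ∀ k, N ≤ k → ∀ x : L, (⇑D)^[k] x = 0)
    (c : K) (x : L) :
    expD D c x = ∑ k ∈ Finset.range N, (c ^ k / (k.factorial : K)) • ((⇑D)^[k] x) := by
  rw [expD]
  apply finsum_eq_sum_of_support_subset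
  intro k hk
  rw [Function.mem_support] at hk
  rw [Finset.mem_coe, Finset.mem_range]
  by_contra hks
  exact hk (by rw [hN k (by omega), smul_zero])

theorem expD_add (D : LieDerivation K L L) (N : ℕ) (hN : ∀ k, N ≤ k → ∀ x : L, (⇑D)^[k] x = 0)
    (c : K) (x y : L) : expD D c (x + y) = expD D c x + expD D c y := by
  rw [expD_eq D N hN, expD_eq D N hN, expD_eq D N hN, ← Finset.sum_add_distrib]
  refine Finset.sum_congr rfl fun k _ => ?_
  rw [iterate_map_add, smul_add]

theorem iter_smul (D : LieDerivation K L L) (a : K) (x : L) (k : ℕ) :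
    (⇑D)^[k] (a • x) = a • (⇑D)^[k] x := by
  induction k with
  | zero => rfl
  | succ k ih => rw [Function.iterate_succ_apply', ih, map_smul, Function.iterate_succ_apply']

theorem expD_smul (D : LieDerivation K L L) (N : ℕ) (hN : ∀ k, N ≤ k → ∀ x : L, (⇑D)^[k] x = 0)
    (c a : K) (x : L) : expD D c (a • x) = a • expD D c x := by
  rw [expD_eq D N hN, expD_eq D N hN, Finset.smul_sum]
  refine Finset.sum_congr rfl fun k _ => ?_
  rw [iter_smul, smul_comm]

theorem expD_lie (D : LieDerivation K L L) (N : ℕ) (hN : ∀ k, N ≤ k → ∀ x : L, (⇑D)^[k] x = 0)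
    (c : K) (x y : L) : expD D c ⁅x, y⁆ = ⁅expD D c x, expD D c y⁆ := by
  have hN2 : ∀ k, 2 * N ≤ k → ∀ x : L, (⇑D)^[k] x = 0 := fun k hk => hN k (by omega)
  rw [expD_eq D (2 * N) hN2, expD_eq D N hN, expD_eq D N hN, sum_lie_sum]
  set f : ℕ × ℕ → L := fun ab => (c ^ ab.1 / (ab.1.factorial : K) * (c ^ ab.2 / (ab.2.factorial : K))) •
    ⁅(⇑D)^[ab.1] x, (⇑D)^[ab.2] y⁆ with hf
  have hl : ∑ k ∈ Finset.range (2 * N), (c ^ k / (k.factorial : K)) • ((⇑D)^[k] ⁅x, y⁆)
      = ∑ k ∈ Finset.range (2 * N), ∑ ab ∈ Finset.HasAntidiagonal.antidiagonal k, f ab := by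
    refine Finset.sum_congr rfl fun k _ => ?_
    rw [LieDerivation.iterate_apply_lie, Finset.smul_sum]
    refine Finset.sum_congr rfl fun ab hab => ?_
    rw [Finset.HasAntidiagonal.mem_antidiagonal] at hab
    rw [hf]
    simp only
    rw [← hab, ← Nat.cast_smul_eq_nsmul K, smul_smul]
    congr 1
    have e1 : (ab.1.factorial : K) ≠ 0 := by exact_mod_cast ab.1.factorial_ne_zero
    have e2 : (ab.2.factorial : K) ≠ 0 := by exact_mod_cast ab.2.factorial_ne_zero
    have e3 : ((ab.1 + ab.2).factorial : K) ≠ 0 := by exact_mod_cast (ab.1 + ab.2).factorial_ne_zero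
    have e4 : (((ab.1 + ab.2).choose ab.1 : ℕ) : K) * ab.1.factorial * ab.2.factorial
        = ((ab.1 + ab.2).factorial : K) := by
      have h1 := Nat.choose_mul_factorial_mul_factorial (Nat.le_add_right ab.1 ab.2)
      rw [Nat.add_sub_cancel_left] at h1
      exact_mod_cast h1
    rw [pow_add]
    field_simp
    linear_combination (c ^ ab.1 * c ^ ab.2) * e4
  rw [hl]
  have hS : ∀ k ∈ Finset.range (2 * N), Finset.HasAntidiagonal.antidiagonal k =
      ((Finset.range (2 * N) ×ˢ Finset.range (2 * N)).filter (fun ab => ab.1 + ab.2 < 2 * N)).filter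
        (fun ab => ab.1 + ab.2 = k) := by
    intro k hk
    rw [Finset.mem_range] at hk
    ext ab
    simp only [Finset.HasAntidiagonal.mem_antidiagonal, Finset.mem_filter, Finset.mem_product,
      Finset.mem_range]
    omega
  have hl2 : ∑ k ∈ Finset.range (2 * N), ∑ ab ∈ Finset.HasAntidiagonal.antidiagonal k, f ab
      = ∑ ab ∈ (Finset.range (2 * N) ×ˢ Finset.range (2 * N)).filter
        (fun ab => ab.1 + ab.2 < 2 * N), f ab := by
    rw [← Finset.sum_fiberwise_of_maps_to (s := (Finset.range (2 * N) ×ˢ Finset.range (2 * N)).filter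
        (fun ab => ab.1 + ab.2 < 2 * N)) (t := Finset.range (2 * N)) (g := fun ab => ab.1 + ab.2)]
    · exact Finset.sum_congr rfl fun k hk => by rw [hS k hk]
    · intro ab hab
      exact Finset.mem_range.mpr (Finset.mem_filter.mp hab).2
  rw [hl2]
  have hr : ∑ a ∈ Finset.range N, ∑ b ∈ Finset.range N,
      ⁅(c ^ a / (a.factorial : K)) • (⇑D)^[a] x, (c ^ b / (b.factorial : K)) • (⇑D)^[b] y⁆
      = ∑ ab ∈ Finset.range N ×ˢ Finset.range N, f ab := by
    rw [Finset.sum_product]
    refine Finset.sum_congr rfl fun a _ => Finset.sum_congr rfl fun b _ => ?_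
    rw [hf, smul_lie, lie_smul, smul_smul]
  rw [hr]
  symm
  apply Finset.sum_subset
  · intro ab hab
    simp only [Finset.mem_filter, Finset.mem_product, Finset.mem_range] at hab ⊢
    omega
  · intro ab _ hab
    simp only [Finset.mem_product, Finset.mem_range, not_and_or, not_lt] at hab
    rw [hf]
    simp only
    rcases hab with h | h
    · rw [hN _ h, zero_lie, smul_zero]
    · rw [hN _ h, lie_zero, smul_zero]

end aut

section hull

variable {K : Type*} [Field K] [CharZero K] {L : Type*} [LieRing L] [LieAlgebra K L]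

theorem derivD {ι : Type*} [Fintype ι] [DecidableEq ι] (D : LieDerivation K L L) (N : ℕ)
    (hN : ∀ k, N ≤ k → ∀ x : L, (⇑D)^[k] x = 0) (p : ι → K[X]) (h : Submodule K (ι → L))
    (x : L) (h1 : ∀ (y : ℕ), (fun i => expD D ((p i).eval (y : K)) x) ∈ h) (y : ℕ) :
    (fun i => (derivative (p i)).eval (y : K) • expD D ((p i).eval (y : K)) (D x)) ∈ h := by
  by_contra hmem
  obtain ⟨φ, hφ, hφ0⟩ := Submodule.exists_dual_map_eq_bot_of_notMem hmem inferInstance
  have hφh : ∀ v ∈ h, φ v = 0 := by
    intro v hv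
    have : φ v ∈ h.map φ := Submodule.mem_map_of_mem hv
    rw [hφ0] at this
    exact (Submodule.mem_bot K).mp this
  let ψ : ι → L →ₗ[K] K := fun i => φ ∘ₗ LinearMap.single K (fun _ => L) i
  have hsum : ∀ v, φ v = ∑ i, ψ i (v i) := by
    intro v
    conv_lhs => rw [← Finset.univ_sum_single v]
    rw [map_sum]
    rfl
  let r : K[X] := ∑ i, ∑ k ∈ Finset.range (N + 1), C (ψ i ((⇑D)^[k] x) / (k.factorial : K)) * (p i) ^ k
  have hr : r = 0 := by
    apply zero_of_nat
    intro z
    have e := hφh _ (h1 z)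
    rw [hsum] at e
    rw [← e]
    simp only [r, Polynomial.eval_finsetSum]
    refine Finset.sum_congr rfl fun i _ => ?_
    rw [expD_eq D (N + 1) (fun k hk => hN k (by omega)), map_sum]
    refine Finset.sum_congr rfl fun k _ => ?_
    rw [map_smul, Polynomial.eval_mul, Polynomial.eval_C, Polynomial.eval_pow, smul_eq_mul]
    ring
  apply hφ
  rw [hsum]
  have hr' : (derivative r).eval (y : K) = 0 := by rw [hr]; simp
  rw [← hr']
  simp only [r, Polynomial.derivative_sum, Polynomial.eval_finsetSum]
  refine Finset.sum_congr rfl fun i _ => ?_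
  rw [map_smul, expD_eq D N hN, map_sum, smul_eq_mul, Finset.mul_sum, Finset.sum_range_succ']
  have h0 : (derivative (C (ψ i ((⇑D)^[0] x) / ((Nat.factorial 0 : ℕ) : K)) * (p i) ^ 0)).eval (y : K) = 0 := by
    simp
  rw [h0, add_zero]
  refine Finset.sum_congr rfl fun k _ => ?_
  rw [Polynomial.derivative_C_mul, Polynomial.derivative_pow, Nat.add_sub_cancel, map_smul,
    smul_eq_mul, ← Function.iterate_succ_apply (⇑D)]
  simp only [Polynomial.eval_mul, Polynomial.eval_C, Polynomial.eval_pow, Nat.factorial_succ]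
  have e1 : (k.factorial : K) ≠ 0 := by exact_mod_cast k.factorial_ne_zero
  have e2 : ((k : K) + 1) ≠ 0 := by exact_mod_cast Nat.succ_ne_zero k
  push_cast
  field_simp

theorem hull {ι : Type*} [Fintype ι] [DecidableEq ι] (D : LieDerivation K L L) (s : ℕ)
    (hs : gSer D s = ⊥) (p : ι → K[X]) (h : Submodule K (ι → L))
    (h0 : ∀ u ∈ h, ∀ v ∈ h, (fun i => ⁅u i, v i⁆) ∈ h)
    (h1 : ∀ (y : ℕ) (x : L), (fun i => expD D ((p i).eval (y : K)) x) ∈ h)
    (A : Submodule K L) (hA : A ⊔ gSer D 1 = ⊤)
    (h2 : ∀ (y : ℕ), ∀ x ∈ A, (fun i => (derivative (p i)).eval (y : K) •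
      expD D ((p i).eval (y : K)) x) ∈ h) :
    ∀ (y : ℕ) (x : L), (fun i => (derivative (p i)).eval (y : K) •
      expD D ((p i).eval (y : K)) x) ∈ h := by
  have hDs : ∀ x : L, (⇑D)^[s] x = 0 := by
    intro x
    have := iter_mem D s x
    rw [hs] at this
    exact (Submodule.mem_bot K).mp this
  have hN : ∀ k, s ≤ k → ∀ x : L, (⇑D)^[k] x = 0 := by
    intro k hk x
    obtain ⟨j, rfl⟩ := Nat.exists_eq_add_of_le hk
    rw [Function.iterate_add_apply]
    exact hDs _
  let YY : Submodule K L :=
    { carrier := {x | ∀ y : ℕ, (fun i => (derivative (p i)).eval (y : K) •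
        expD D ((p i).eval (y : K)) x) ∈ h}
      add_mem' := by
        intro a b ha hb y
        have e := h.add_mem (ha y) (hb y)
        have e2 : (fun i => (derivative (p i)).eval (y : K) • expD D ((p i).eval (y : K)) (a + b))
            = (fun i => (derivative (p i)).eval (y : K) • expD D ((p i).eval (y : K)) a)
              + (fun i => (derivative (p i)).eval (y : K) • expD D ((p i).eval (y : K)) b) := by
          funext i
          rw [expD_add D s hN, smul_add, Pi.add_apply]
        rw [e2]
        exact e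
      zero_mem' := by
        intro y
        have e2 : (fun i => (derivative (p i)).eval (y : K) • expD D ((p i).eval (y : K)) (0 : L))
            = 0 := by
          funext i
          have := expD_smul D s hN ((p i).eval (y : K)) 0 (0 : L)
          rw [zero_smul, zero_smul] at this
          rw [this, smul_zero, Pi.zero_apply]
        rw [e2]
        exact h.zero_mem
      smul_mem' := by
        intro c a ha y
        have e := h.smul_mem c (ha y)
        have e2 : (fun i => (derivative (p i)).eval (y : K) • expD D ((p i).eval (y : K)) (c • a))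
            = c • (fun i => (derivative (p i)).eval (y : K) • expD D ((p i).eval (y : K)) a) := by
          funext i
          rw [expD_smul D s hN, Pi.smul_apply, smul_comm]
        rw [e2]
        exact e }
  have hYY : ∀ x, x ∈ YY ↔ ∀ y : ℕ, (fun i => (derivative (p i)).eval (y : K) •
        expD D ((p i).eval (y : K)) x) ∈ h := fun x => Iff.rfl
  have hAY : A ≤ YY := fun x hx y => h2 y x hx
  have hDY : ∀ x, D x ∈ YY := fun x y => derivD D s hN p h x (fun z => h1 z x) y
  have hlY : ∀ x : L, ∀ x' ∈ YY, ⁅x, x'⁆ ∈ YY := by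
    intro x x' hx' y
    have e := h0 _ (h1 y x) _ (hx' y)
    have e2 : (fun i => (derivative (p i)).eval (y : K) • expD D ((p i).eval (y : K)) ⁅x, x'⁆)
        = fun i => ⁅expD D ((p i).eval (y : K)) x, (derivative (p i)).eval (y : K) •
          expD D ((p i).eval (y : K)) x'⁆ := by
      funext i
      rw [expD_lie D s hN, lie_smul]
    rw [e2]
    exact e
  have hstep : ∀ k, gSer D k ≤ YY ⊔ gSer D (k + 1) := by
    intro k
    induction k with
    | zero =>
      have e : (⊤ : Submodule K L) ≤ YY ⊔ gSer D 1 := by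
        rw [← hA]
        exact sup_le_sup_right hAY _
      exact le_trans le_top e
    | succ k ih =>
      conv_lhs => rw [gSer]
      rw [Submodule.span_le]
      rintro z (⟨x, y, hy, rfl⟩ | ⟨y, hy, rfl⟩)
      · obtain ⟨u, hu, v, hv, rfl⟩ := Submodule.mem_sup.mp (ih hy)
        rw [lie_add]
        refine Submodule.add_mem _ (Submodule.mem_sup_left (hlY x u hu)) (Submodule.mem_sup_right ?_)
        exact Submodule.subset_span (Or.inl ⟨x, v, hv, rfl⟩)
      · exact Submodule.mem_sup_left (hDY y)
  have htop : ∀ k, (⊤ : Submodule K L) ≤ YY ⊔ gSer D k := by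
    intro k
    induction k with
    | zero => exact le_trans (le_of_eq rfl) (le_sup_right)
    | succ k ih =>
      refine le_trans ih (sup_le le_sup_left (hstep k))
  have hfin := htop s
  rw [hs, sup_bot_eq] at hfin
  intro y x
  exact (hYY x).mp (hfin Submodule.mem_top) y

end hull

end Pool.Agent.W681.NilRel
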