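import Pool.Agent.Lev.J_schottky

set_option autoImplicit false

open Metric Filter Topology Complex

namespace Pool.Agent.W681.FZ

lemma harnack {G : ℂ → ℂ} {c : ℂ} {R M : ℝ} (hR : 0 < R) (hM : 0 < M)
    (hd : DifferentiableOn ℂ G (ball c R)) (hne : ∀ z ∈ ball c R, G z ≠ 0)
    (hb : ∀ z ∈ ball c R, ‖G z‖ ≤ M) {z : ℂ} (hz : ‖z - c‖ ≤ R / 4) :
    ‖G z‖ ^ 3 ≤ M ^ 2 * ‖G c‖ := by
  have hmaps : Set.MapsTo (fun x : ℂ => c + (R:ℂ) * x) (ball 0 1) (ball c R) := by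
    intro x hx
    rw [mem_ball_zero_iff] at hx
    rw [mem_ball, dist_eq_norm, add_sub_cancel_left, norm_mul, Complex.norm_real,
      Real.norm_eq_abs, abs_of_pos hR]
    nlinarith
  set f : ℂ → ℂ := fun x => G (c + (R:ℂ) * x) / (M:ℂ) with hf
  have hMc : (M:ℂ) ≠ 0 := by exact_mod_cast hM.ne'
  have hfd : DifferentiableOn ℂ f (ball 0 1) := by
    have h1 : DifferentiableOn ℂ (fun x : ℂ => c + (R:ℂ) * x) (ball 0 1) := by fun_prop
    exact (hd.comp h1 hmaps).div_const _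
  have hf0 : ∀ x ∈ ball (0:ℂ) 1, f x ≠ 0 := fun x hx => div_ne_zero (hne _ (hmaps hx)) hMc
  have hfn : ∀ x, ‖f x‖ = ‖G (c + (R:ℂ) * x)‖ / M := by
    intro x
    rw [hf]
    simp only
    rw [norm_div, Complex.norm_real, Real.norm_eq_abs, abs_of_pos hM]
  obtain ⟨g, hg, hgf⟩ := Pool.Agent.Lev.J_schottky.exists_log hfd hf0
  have hre : ∀ x ∈ ball (0:ℂ) 1, (g x).re ≤ 0 := by
    intro x hx
    have h1 : ‖f x‖ ≤ 1 := by
      rw [hfn, div_le_one hM]
      exact hb _ (hmaps hx)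
    rw [← hgf x hx, Complex.norm_exp] at h1
    exact Real.exp_le_one_iff.1 h1
  set A : ℝ := - (g 0).re with hA
  have h0m : (0:ℂ) ∈ ball (0:ℂ) 1 := mem_ball_self one_pos
  have hA0 : 0 ≤ A := by
    have := hre 0 h0m
    linarith
  set x : ℂ := (z - c) / R with hx
  have hRc : (R:ℂ) ≠ 0 := by exact_mod_cast hR.ne'
  have hxn : ‖x‖ ≤ 1 / 4 := by
    rw [hx, norm_div, Complex.norm_real, Real.norm_eq_abs, abs_of_pos hR, div_le_iff₀ hR]
    linarith
  have hxb : x ∈ ball (0:ℂ) 1 := by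
    rw [mem_ball_zero_iff]
    linarith
  have hzx : c + (R:ℂ) * x = z := by
    rw [hx]
    field_simp
    ring
  have key : ∀ ε : ℝ, 0 < ε → (g x).re ≤ - A + 2 / 3 * (A + ε) := by
    intro ε hε
    have h1 := Complex.borelCaratheodory_zero (M := A + ε) (R := 1) (z := x)
      (f := fun y => g y - g 0) (by linarith) (hg.sub_const _)
      (by
        intro y hy
        show (g y - g 0).re ≤ A + ε
        rw [Complex.sub_re]
        have := hre y hy
        linarith) one_pos hxb (by simp)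
    have h2 : (g x).re - (g 0).re ≤ ‖g x - g 0‖ := by
      rw [← Complex.sub_re]
      exact Complex.re_le_norm _
    have h3 : 2 * (A + ε) * ‖x‖ / (1 - ‖x‖) ≤ 2 / 3 * (A + ε) := by
      rw [div_le_iff₀ (by linarith)]
      nlinarith [norm_nonneg x]
    linarith
  have key2 : (g x).re ≤ - A / 3 := by
    apply le_of_forall_pos_le_add
    intro ε hε
    have := key ε hε
    linarith
  have e1 : ‖f x‖ = Real.exp (g x).re := by
    rw [← hgf x hxb, Complex.norm_exp]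
  have e2 : ‖f 0‖ = Real.exp (- A) := by
    rw [← hgf 0 h0m, Complex.norm_exp, hA, neg_neg]
  have h4 : ‖f x‖ ^ 3 ≤ ‖f 0‖ := by
    rw [e1, e2, ← Real.exp_nat_mul]
    apply Real.exp_le_exp.2
    push_cast
    linarith
  rw [hfn, hfn, hzx, mul_zero, add_zero, div_pow, div_le_div_iff₀ (by positivity) hM] at h4
  have h5 : ‖G z‖ ^ 3 * M ≤ (M ^ 2 * ‖G c‖) * M := by
    calc ‖G z‖ ^ 3 * M ≤ ‖G c‖ * M ^ 3 := h4
      _ = _ := by ring
  exact le_of_mul_le_mul_right h5 hM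

end Pool.Agent.W681.FZ
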