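import Pool.Agent.W681.FZ2
import Pool.Agent.W681.FZ10

set_option autoImplicit false

open Metric Filter Topology Complex

namespace Pool.Agent.W681.FZ

lemma phi_diff (b : ℕ → ℂ) (n : ℕ) : Differentiable ℂ (fun z => phi z b n) := by
  induction n using Nat.strong_induction_on with
  | _ n ih =>
    match n, ih with
    | 0, _ => simp
    | 1, _ => simp
    | (n+2), ih =>
      have h1 := ih (n+1) (by omega)
      have h0 := ih n (by omega)
      simp only [phi_succ]
      exact (differentiable_id.mul h1).sub (h0.const_mul _)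

lemma phi_concat (z : ℂ) (b : ℕ → ℂ) (m n : ℕ) :
    phi z b (m + 1 + (n + 1)) = phi z b (m+1) * phi z (sh (m+1) b) (n+1)
      - b m * phi z b m * phi z (sh (m+2) b) n := by
  have := D_concat z b 0 m n
  simp only [D_origin, zero_add] at this
  exact this

/-- transfer of the decay from a good point to a neighbouring point -/
theorem transfer {z0 zs : ℂ} {r0 δ : ℝ} (hr : 0 < r0) (hz : ‖z0 - zs‖ ≤ r0 / 16)
    (hA : ∀ z ∈ ball z0 r0, ∀ c : ℕ → ℂ, PM c → ∀ N, 1 ≤ ‖z * phi z c (N+1)‖)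
    (hδ : 0 < δ) (hG : FinGood zs δ) :
    ∃ C q : ℝ, 0 < C ∧ 0 < q ∧ q < 1 ∧ ∀ b : ℕ → ℂ, PM b → ∀ i n,
      ‖phi z0 b i‖ ≤ C * q ^ n * ‖phi z0 b (i+1+n)‖ := by
  have hsub : ball zs (r0/2) ⊆ ball z0 r0 := by
    intro w hw
    rw [mem_ball, dist_eq_norm] at hw ⊢
    have : ‖w - z0‖ ≤ ‖w - zs‖ + ‖z0 - zs‖ := by
      have := norm_sub_le (w - zs) (z0 - zs)
      rwa [sub_sub_sub_cancel_right] at this
    linarith
  have hne1 : ∀ z ∈ ball z0 r0, ∀ c : ℕ → ℂ, PM c → ∀ N, phi z c N ≠ 0 := by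
    intro z hz c hc N
    cases N with
    | zero => simp
    | succ N =>
      intro h0
      have := hA z hz c hc N
      rw [h0, mul_zero, norm_zero] at this
      linarith
  set K : ℝ := (‖zs‖ + 1/δ)/δ with hK
  obtain ⟨CS, hCS⟩ := Pool.Agent.Lev.J_schottky.main K
  set M : ℝ := max CS 1 * (‖zs‖ + r0) with hM
  have hMx : 1 ≤ max CS 1 := le_max_right _ _
  have hMpos : 0 < M := by
    have : 0 < ‖zs‖ + r0 := by positivity
    have : 0 < max CS 1 := by linarith
    positivity
  have hznorm : ∀ z ∈ ball zs (r0/2), ‖z‖ ≤ ‖zs‖ + r0 := by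
    intro z hz
    rw [mem_ball, dist_eq_norm] at hz
    have := norm_add_le (z - zs) zs
    rw [sub_add_cancel] at this
    linarith
  have hsub4 : ball zs (r0/4) ⊆ ball zs (r0/2) := ball_subset_ball (by linarith)
  -- bound for the quotient
  have hFb : ∀ b : ℕ → ℂ, PM b → ∀ i n, ∀ z ∈ ball zs (r0/4),
      ‖phi z b i / phi z b (i+1+n)‖ ≤ M := by
    intro b hb i n z hz
    have hz2 := hsub4 hz
    have hz0 := hsub hz2
    cases i with
    | zero =>
      have h1 := hA z hz0 b hb n
      have h2 := hne1 z hz0 b hb (n+1)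
      rw [phi_zero, show 0 + 1 + n = n + 1 by ring, norm_div, norm_one,
        div_le_iff₀ (norm_pos_iff.2 h2)]
      rw [norm_mul] at h1
      have h3 := hznorm z hz2
      calc 1 ≤ ‖z‖ * ‖phi z b (n+1)‖ := h1
        _ ≤ (‖zs‖ + r0) * ‖phi z b (n+1)‖ := by gcongr
        _ = 1 * (‖zs‖ + r0) * ‖phi z b (n+1)‖ := by ring
        _ ≤ M * ‖phi z b (n+1)‖ := by rw [hM]; gcongr
    | succ m =>
      set h : ℂ → ℂ := fun w => phi w b (m+1) * phi w (sh (m+1) b) (n+1)
        / phi w b (m+1+(n+1)) with hh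
      have hh1 : ‖h z‖ ≤ CS := by
        apply hCS h zs (r0/2) (by linarith) _ _ _ z (by
          rw [show r0 / 2 / 2 = r0 / 4 by ring]; exact hz)
        · apply DifferentiableOn.div
          · exact ((phi_diff b _).mul (phi_diff _ _)).differentiableOn
          · exact (phi_diff b _).differentiableOn
          · intro w hw
            exact hne1 w (hsub hw) b hb _
        · intro w hw
          have w0 := hsub hw
          have n1 := hne1 w w0 b hb (m+1)
          have n2 := hne1 w w0 (sh (m+1) b) (hb.sh _) (n+1)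
          have n3 := hne1 w w0 b hb (m+1+(n+1))
          refine ⟨div_ne_zero (mul_ne_zero n1 n2) n3, ?_⟩
          intro h1
          rw [hh] at h1
          simp only at h1
          rw [div_eq_one_iff_eq n3, phi_concat] at h1
          have h2 : b m * phi w b m * phi w (sh (m+2) b) n = 0 := by
            linear_combination h1
          have n4 := hne1 w w0 b hb m
          have n5 := hne1 w w0 (sh (m+2) b) (hb.sh _) n
          exact mul_ne_zero (mul_ne_zero (hb.ne m) n4) n5 h2
        · rw [hh]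
          simp only
          rw [norm_div, norm_mul, div_le_iff₀ (norm_pos_iff.2 (hne1 zs
            (hsub (mem_ball_self (by linarith))) b hb _))]
          have := D_K hG hδ b hb 0 m n
          simp only [D_origin, zero_add] at this
          exact this
      have hv := hA z hz0 (sh (m+1) b) (hb.sh _) n
      have n2 := hne1 z hz0 (sh (m+1) b) (hb.sh _) (n+1)
      have n3 := hne1 z hz0 b hb (m+1+(n+1))
      have e : phi z b (m+1) / phi z b (m+1+1+n) = h z / phi z (sh (m+1) b) (n+1) := by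
        rw [hh]
        simp only
        rw [show m + 1 + 1 + n = m + 1 + (n + 1) by ring]
        field_simp
      rw [e, norm_div, div_le_iff₀ (norm_pos_iff.2 n2)]
      rw [norm_mul] at hv
      have h3 := hznorm z hz2
      have hCS1 : CS ≤ max CS 1 := le_max_left _ _
      calc ‖h z‖ ≤ max CS 1 := hh1.trans hCS1
        _ = max CS 1 * 1 := (mul_one _).symm
        _ ≤ max CS 1 * (‖z‖ * ‖phi z (sh (m+1) b) (n+1)‖) := by gcongr
        _ ≤ max CS 1 * ((‖zs‖ + r0) * ‖phi z (sh (m+1) b) (n+1)‖) := by gcongr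
        _ = M * ‖phi z (sh (m+1) b) (n+1)‖ := by rw [hM]; ring
  set q : ℝ := (1 + δ ^ 2) ^ (-(1/6) : ℝ) with hq
  have hd1 : 1 < 1 + δ ^ 2 := by
    have : 0 < δ ^ 2 := by positivity
    linarith
  have hqpos : 0 < q := by rw [hq]; positivity
  have hq1 : q < 1 := Real.rpow_lt_one_of_one_lt_of_neg hd1 (by norm_num)
  have hq6 : q ^ 6 = (1 + δ ^ 2)⁻¹ := by
    rw [hq, ← Real.rpow_natCast, ← Real.rpow_mul (by positivity)]
    norm_num
    exact Real.rpow_neg_one _
  set C : ℝ := (M ^ 4 / δ ^ 2) ^ ((1/6) : ℝ) with hC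
  have hCpos : 0 < C := by rw [hC]; positivity
  have hC6 : C ^ 6 = M ^ 4 / δ ^ 2 := by
    rw [hC, ← Real.rpow_natCast, ← Real.rpow_mul (by positivity)]
    norm_num
  refine ⟨C, q, hCpos, hqpos, hq1, fun b hb i n => ?_⟩
  have hz00 : z0 ∈ ball z0 r0 := mem_ball_self hr
  have n0 := hne1 z0 hz00 b hb (i+1+n)
  have hH := harnack (G := fun z => phi z b i / phi z b (i+1+n)) (c := zs) (R := r0/4) (M := M)
    (by linarith) hMpos
    (by
      apply DifferentiableOn.div
      · exact (phi_diff b _).differentiableOn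
      · exact (phi_diff b _).differentiableOn
      · intro w hw
        exact hne1 w (hsub (hsub4 hw)) b hb _)
    (by
      intro w hw
      exact div_ne_zero (hne1 w (hsub (hsub4 hw)) b hb _) (hne1 w (hsub (hsub4 hw)) b hb _))
    (by
      intro w hw
      exact hFb b hb i n w hw) (z := z0) (by
        rw [show r0 / 4 / 4 = r0 / 16 by ring]
        exact hz)
  have hs : ‖phi zs b i / phi zs b (i+1+n)‖ ^ 2 ≤ 1 / (δ ^ 2 * (1 + δ ^ 2) ^ n) := by
    have h1 := growth hG b hb i n
    have h2 := hne1 zs (hsub (mem_ball_self (by linarith))) b hb (i+1+n)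
    have h3 : 0 < ‖phi zs b (i+1+n)‖ := norm_pos_iff.2 h2
    rw [norm_div, div_pow, div_le_div_iff₀ (by positivity) (by positivity)]
    linarith
  have h6 : ‖phi z0 b i / phi z0 b (i+1+n)‖ ^ 6 ≤ (C * q ^ n) ^ 6 := by
    have e1 : (C * q ^ n) ^ 6 = M ^ 4 * (1 / (δ ^ 2 * (1 + δ ^ 2) ^ n)) := by
      rw [mul_pow, hC6, ← pow_mul, mul_comm n 6, pow_mul, hq6, inv_pow]
      field_simp
    rw [e1]
    calc ‖phi z0 b i / phi z0 b (i+1+n)‖ ^ 6
        = (‖phi z0 b i / phi z0 b (i+1+n)‖ ^ 3) ^ 2 := by ring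
      _ ≤ (M ^ 2 * ‖phi zs b i / phi zs b (i+1+n)‖) ^ 2 := by gcongr
      _ = M ^ 4 * ‖phi zs b i / phi zs b (i+1+n)‖ ^ 2 := by ring
      _ ≤ _ := by gcongr
  have h7 : ‖phi z0 b i / phi z0 b (i+1+n)‖ ≤ C * q ^ n :=
    (pow_le_pow_iff_left₀ (by positivity) (by positivity) (by norm_num)).1 h6
  rw [norm_div, div_le_iff₀ (norm_pos_iff.2 n0)] at h7
  exact h7

end Pool.Agent.W681.FZ
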