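import Pool.Agent.W681.FZ7

set_option autoImplicit false

open Finset Filter Topology

namespace Pool.Agent.W681.FZ

/-- signs next to the special sites -/
noncomputable def sg (Pi : ℂ) : ℕ → ℂ
  | 0 => 1
  | (j+1) => - (bb j : ℂ) * sg Pi j * Pi

/-- alternating blocks -/
noncomputable def cj (c : ℕ → ℂ) (N j : ℕ) : ℕ → ℂ := fun i =>
  if j % 2 = 0 then c i else c (N - 1 - i)

/-- the glued link sequence -/
noncomputable def BB (c : ℕ → ℂ) (N : ℕ) (Pi : ℂ) : ℕ → ℂ := fun k =>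
  if k % (N+2) = 0 then sg Pi (k / (N+2))
  else if k % (N+2) = N + 1 then - sg Pi (k / (N+2) + 1)
  else cj c N (k / (N+2)) (k % (N+2) - 1)

lemma bbC_pm (j : ℕ) : ((bb j : ℤ) : ℂ) = 1 ∨ ((bb j : ℤ) : ℂ) = -1 := by
  rcases bb_pm j with h | h <;> simp [h]

lemma mul_pm {x y : ℂ} (hx : x = 1 ∨ x = -1) (hy : y = 1 ∨ y = -1) : x * y = 1 ∨ x * y = -1 := by
  rcases hx with h | h <;> rcases hy with h' | h' <;> simp [h, h']

lemma neg_pm {x : ℂ} (hx : x = 1 ∨ x = -1) : -x = 1 ∨ -x = -1 := by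
  rcases hx with h | h <;> simp [h]

lemma sg_pm {Pi : ℂ} (hP : Pi = 1 ∨ Pi = -1) (j : ℕ) : sg Pi j = 1 ∨ sg Pi j = -1 := by
  induction j with
  | zero => simp [sg]
  | succ j ih =>
    simp only [sg]
    exact mul_pm (mul_pm (neg_pm (bbC_pm j)) ih) hP

lemma cj_pm {c : ℕ → ℂ} (hc : PM c) (N j : ℕ) : PM (cj c N j) := by
  intro i
  unfold cj
  split_ifs
  · exact hc _
  · exact hc _

lemma BB_pm {c : ℕ → ℂ} (hc : PM c) (N : ℕ) {Pi : ℂ} (hP : Pi = 1 ∨ Pi = -1) :
    PM (BB c N Pi) := by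
  intro k
  unfold BB
  split_ifs
  · exact sg_pm hP _
  · exact neg_pm (sg_pm hP _)
  · exact cj_pm hc _ _ _

lemma prod_pm {c : ℕ → ℂ} (hc : PM c) (N : ℕ) :
    (∏ i ∈ range N, c i) = 1 ∨ (∏ i ∈ range N, c i) = -1 := by
  induction N with
  | zero => simp
  | succ N ih =>
    rw [prod_range_succ]
    exact mul_pm ih (hc N)

lemma BB_at0 (c : ℕ → ℂ) (N : ℕ) (Pi : ℂ) (j : ℕ) : BB c N Pi ((N+2)*j) = sg Pi j := by
  have h1 : (N+2)*j % (N+2) = 0 := Nat.mul_mod_right _ _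
  have h2 : (N+2)*j / (N+2) = j := Nat.mul_div_cancel_left _ (by omega)
  simp only [BB, if_pos h1, h2]

lemma BB_at1 (c : ℕ → ℂ) (N : ℕ) (Pi : ℂ) (j : ℕ) :
    BB c N Pi ((N+2)*j+1+N) = - sg Pi (j+1) := by
  have h1 : ((N+2)*j+1+N) % (N+2) = N+1 := by
    rw [show (N+2)*j+1+N = (N+1) + (N+2)*j by ring, Nat.add_mul_mod_self_left]
    exact Nat.mod_eq_of_lt (by omega)
  have h2 : ((N+2)*j+1+N) / (N+2) = j := by
    rw [show (N+2)*j+1+N = (N+1) + (N+2)*j by ring, Nat.add_mul_div_left _ _ (by omega),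
      Nat.div_eq_of_lt (by omega)]
    omega
  have h3 : ¬ (N + 1 = 0) := by omega
  simp only [BB, h1, h2, if_neg h3, if_true]

lemma BB_at2 (c : ℕ → ℂ) (N : ℕ) (Pi : ℂ) (j i : ℕ) (hi : i < N) :
    BB c N Pi ((N+2)*j+1+i) = cj c N j i := by
  have h1 : ((N+2)*j+1+i) % (N+2) = i+1 := by
    rw [show (N+2)*j+1+i = (i+1) + (N+2)*j by ring, Nat.add_mul_mod_self_left]
    exact Nat.mod_eq_of_lt (by omega)
  have h2 : ((N+2)*j+1+i) / (N+2) = j := by
    rw [show (N+2)*j+1+i = (i+1) + (N+2)*j by ring, Nat.add_mul_div_left _ _ (by omega),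
      Nat.div_eq_of_lt (by omega)]
    omega
  have h3 : ¬ (i + 1 = 0) := by omega
  have h4 : ¬ (i + 1 = N + 1) := by omega
  simp only [BB, h1, h2, if_neg h3, if_neg h4]
  rfl

lemma prod_cj (c : ℕ → ℂ) (N j : ℕ) : ∏ i ∈ range N, cj c N j i = ∏ i ∈ range N, c i := by
  unfold cj
  split_ifs with h
  · rfl
  · exact prod_range_reflect (fun i => c i) N

lemma cj_succ (c : ℕ → ℂ) (N j i : ℕ) (hi : i < N) : cj c N (j+1) i = cj c N j (N-1-i) := by
  have h5 : N - 1 - (N - 1 - i) = i := by omega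
  unfold cj
  rcases Nat.mod_two_eq_zero_or_one j with h | h
  · have h' : ¬ ((j+1) % 2 = 0) := by omega
    rw [if_pos h, if_neg h']
  · have h' : (j+1) % 2 = 0 := by omega
    have h'' : ¬ (j % 2 = 0) := by omega
    rw [if_neg h'', if_pos h', h5]

/-- the solution with zero left boundary value -/
noncomputable def xs (z : ℂ) (B : ℕ → ℂ) : ℕ → ℂ
  | 0 => 0
  | (k+1) => phi z (sh 1 B) k

lemma xs_rec (z : ℂ) (B : ℕ → ℂ) (k : ℕ) : xs z B (k+2) = z * xs z B (k+1) - B k * xs z B k := by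
  cases k with
  | zero => simp [xs]
  | succ k =>
    simp only [xs]
    rw [phi_succ]
    simp [sh, add_comm]

/-- bounded values at the special sites -/
lemma special (z : ℂ) (c : ℕ → ℂ) (hc : PM c) (N : ℕ) (j : ℕ) :
    xs z (BB c N (∏ i ∈ range N, c i)) ((N+2)*j)
      = phi z c (N+1) * UU (z * phi z c (N+1)) j := by
  set Pi : ℂ := ∏ i ∈ range N, c i with hPi
  have hPpm : Pi = 1 ∨ Pi = -1 := prod_pm hc N
  set B := BB c N Pi with hB
  have hD : ∀ j, D z B ((N+2)*j+1) (N+1) = phi z c (N+1) := by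
    intro j
    induction j with
    | zero =>
      show phi z (sh ((N+2)*0+1) B) (N+1) = _
      apply phi_congr
      intro i hi
      simp only [sh]
      rw [hB, BB_at2 c N Pi 0 i (by omega)]
      simp [cj]
    | succ j ih =>
      rw [← ih]
      have h1 := (blocks_rev z B ((N+2)*j) ((N+2)*(j+1)) N (fun i hi => by
        rw [hB, BB_at2 c N Pi (j+1) i hi, BB_at2 c N Pi j (N-1-i) (by omega),
          cj_succ c N j i hi])).1
      exact h1
  have hprod : ∀ j, ∏ i ∈ range N, B ((N+2)*j+1+i) = Pi := by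
    intro j
    rw [hPi, ← prod_cj c N j]
    apply prod_congr rfl
    intro i hi
    rw [hB, BB_at2 c N Pi j i (mem_range.1 hi)]
  have hrec := xs_rec z B
  induction j using Nat.strong_induction_on with
  | _ j ih =>
    match j, ih with
    | 0, _ => simp [xs, UU]
    | 1, _ =>
      have h1 := sol_formula z B (xs z B) hrec 0 N
      rw [show 0 + 2 + N = (N+2)*1 by ring] at h1
      rw [h1]
      have h2 := hD 0
      rw [Nat.mul_zero] at h2
      rw [h2]
      simp [xs, UU]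
    | (j+2), ih =>
      have h0 := ih j (by omega)
      have h1 := ih (j+1) (by omega)
      have h2 := decim hrec ((N+2)*j) N
        (fun i hi => by
          rw [show (N+2)*j + (N+2) + 1 + i = (N+2)*(j+1)+1+i by ring, hB,
            BB_at2 c N Pi (j+1) i hi, BB_at2 c N Pi j (N-1-i) (by omega), cj_succ c N j i hi])
        (by
          rw [show (N+2)*j + (N+2) = (N+2)*(j+1) by ring, hB, BB_at1, BB_at0]
          ring)
      rw [show (N+2)*j + (N+2) + (N+2) = (N+2)*(j+2) by ring,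
        show (N+2)*j + (N+2) = (N+2)*(j+1) by ring, hD, hprod, h0, h1, hB, BB_at1, BB_at0] at h2
      rw [h2, UU_succ]
      have e1 : sg Pi (j+1) * sg Pi j * Pi = - (bb j : ℂ) := by
        have e2 : sg Pi j * sg Pi j = 1 := by
          rcases sg_pm hPpm j with h | h <;> simp [h]
        have e3 : Pi * Pi = 1 := by
          rcases hPpm with h | h <;> simp [h]
        simp only [sg]
        linear_combination (-(bb j : ℂ)) * Pi * Pi * e2 - (bb j : ℂ) * e3
      linear_combination phi z c (N+1) * UU (z * phi z c (N+1)) j * e1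

/-- at a good point every window polynomial satisfies a lower bound -/
theorem one_le {z : ℂ} {δ : ℝ} (h : FinGood z δ) (hδ : 0 < δ) (c : ℕ → ℂ) (hc : PM c) (N : ℕ) :
    1 ≤ ‖z * phi z c (N+1)‖ := by
  by_contra hlt
  push Not at hlt
  set μ := z * phi z c (N+1) with hμ
  set Pi : ℂ := ∏ i ∈ range N, c i with hPi
  have hPpm : Pi = 1 ∨ Pi = -1 := prod_pm hc N
  have ht2 : 0 < 1 - ‖μ‖ ^ 2 := by
    have : 0 ≤ ‖μ‖ := norm_nonneg _
    nlinarith
  have hU : ∀ j, ‖UU μ j‖ ≤ 1 / (1 - ‖μ‖ ^ 2) := by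
    intro j
    rw [le_div_iff₀ ht2]
    refine (UU_bound j μ hlt).trans ?_
    split_ifs
    · exact hlt.le
    · exact le_rfl
  have hx : ∀ j, ‖xs z (BB c N Pi) ((N+2)*j)‖ ≤ ‖phi z c (N+1)‖ * (1 / (1 - ‖μ‖ ^ 2)) := by
    intro j
    rw [hPi, special z c hc N j, norm_mul, ← hμ]
    gcongr
    exact hU j
  set M := ‖phi z c (N+1)‖ * (1 / (1 - ‖μ‖ ^ 2)) with hM
  have hgr : ∀ k, δ ^ 2 * (1 + δ ^ 2) ^ k ≤ ‖xs z (BB c N Pi) (k + 2)‖ ^ 2 := by
    intro k
    have := growth h (sh 1 (BB c N Pi)) ((BB_pm hc N hPpm).sh 1) 0 k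
    rw [phi_zero, norm_one, one_pow, mul_one] at this
    rw [show k + 2 = (0 + 1 + k) + 1 by ring]
    exact this
  have htend : Tendsto (fun k : ℕ => δ ^ 2 * (1 + δ ^ 2) ^ k) atTop atTop := by
    apply Tendsto.const_mul_atTop (by positivity)
    apply tendsto_pow_atTop_atTop_of_one_lt
    have : 0 < δ ^ 2 := by positivity
    linarith
  obtain ⟨k, hk⟩ := (htend.eventually_gt_atTop (M ^ 2)).exists_forall_of_atTop
  have h1 := hk ((N+2)*(k+1) - 2) (by
    have : (N+2)*(k+1) ≥ 2 * (k+1) := Nat.mul_le_mul_right _ (by omega)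
    omega)
  have h2 := hgr ((N+2)*(k+1) - 2)
  rw [show (N+2)*(k+1) - 2 + 2 = (N+2)*(k+1) by
    have : (N+2)*(k+1) ≥ 2 * (k+1) := Nat.mul_le_mul_right _ (by omega)
    omega] at h2
  have h3 := hx (k+1)
  have h4 : ‖xs z (BB c N Pi) ((N+2)*(k+1))‖ ^ 2 ≤ M ^ 2 := by gcongr
  linarith

end Pool.Agent.W681.FZ
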