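import Pool.Agent.W681.FZ1

set_option autoImplicit false

open Finset Filter Topology

namespace Pool.Agent.W681.FZ

lemma schur (n : ℕ) (K : ℕ → ℕ → ℝ) (hK : ∀ i j, 0 ≤ K i j) (A : ℝ) (hA : 0 ≤ A)
    (hrow : ∀ i, i < n → ∑ j ∈ range n, K i j ≤ A)
    (hcol : ∀ j, j < n → ∑ i ∈ range n, K i j ≤ A) (a : ℕ → ℝ) :
    ∑ i ∈ range n, (∑ j ∈ range n, K i j * a j) ^ 2 ≤ A ^ 2 * ∑ j ∈ range n, a j ^ 2 := by
  have h1 : ∀ i ∈ range n, (∑ j ∈ range n, K i j * a j) ^ 2
      ≤ A * ∑ j ∈ range n, K i j * a j ^ 2 := by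
    intro i hi
    have h2 := sum_mul_sq_le_sq_mul_sq (range n) (fun j => Real.sqrt (K i j))
      (fun j => Real.sqrt (K i j) * a j)
    have e1 : ∀ j, Real.sqrt (K i j) * (Real.sqrt (K i j) * a j) = K i j * a j := by
      intro j
      rw [← mul_assoc, Real.mul_self_sqrt (hK i j)]
    have e2 : ∀ j, Real.sqrt (K i j) ^ 2 = K i j := fun j => Real.sq_sqrt (hK i j)
    have e3 : ∀ j, (Real.sqrt (K i j) * a j) ^ 2 = K i j * a j ^ 2 := by
      intro j
      rw [mul_pow, e2]
    simp only [e1, e2, e3] at h2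
    refine h2.trans ?_
    have h3 : 0 ≤ ∑ j ∈ range n, K i j * a j ^ 2 :=
      sum_nonneg (fun j _ => mul_nonneg (hK i j) (by positivity))
    exact mul_le_mul_of_nonneg_right (hrow i (mem_range.1 hi)) h3
  refine (sum_le_sum h1).trans ?_
  rw [← mul_sum, sum_comm, pow_two, mul_assoc]
  apply mul_le_mul_of_nonneg_left _ hA
  rw [mul_sum]
  apply sum_le_sum
  intro j hj
  rw [← sum_mul]
  exact mul_le_mul_of_nonneg_right (hcol j (mem_range.1 hj)) (by positivity)

/-- the geometric kernel -/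
noncomputable def GK (q : ℝ) (j i : ℕ) : ℝ := if i ≤ j then q ^ (j - i) else 0

lemma GK_nonneg {q : ℝ} (hq : 0 ≤ q) (j i : ℕ) : 0 ≤ GK q j i := by
  unfold GK
  split_ifs
  · positivity
  · exact le_rfl

lemma geo {q : ℝ} (hq : 0 ≤ q) (hq1 : q < 1) (n : ℕ) : ∑ i ∈ range n, q ^ i ≤ 1 / (1 - q) := by
  have h1 := (summable_geometric_of_lt_one hq hq1).sum_le_tsum (range n)
    (fun i _ => by positivity)
  rw [tsum_geometric_of_lt_one hq hq1] at h1
  rwa [one_div]

lemma GK_row {q : ℝ} (hq : 0 ≤ q) (hq1 : q < 1) (n j : ℕ) (hj : j < n) :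
    ∑ i ∈ range n, GK q j i ≤ 1 / (1 - q) := by
  have h1 : ∑ i ∈ range n, GK q j i = ∑ i ∈ range (j+1), q ^ (j - i) := by
    obtain ⟨m, rfl⟩ : ∃ m, n = (j+1) + m := ⟨n - (j+1), by omega⟩
    rw [sum_range_add]
    have e1 : ∑ x ∈ range m, GK q j (j+1+x) = 0 := by
      apply sum_eq_zero
      intro x _
      have : ¬ (j + 1 + x ≤ j) := by omega
      simp only [GK, if_neg this]
    rw [e1, add_zero]
    apply sum_congr rfl
    intro i hi
    rw [mem_range] at hi
    have : i ≤ j := by omega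
    simp only [GK, if_pos this]
  rw [h1]
  have h2 := sum_range_reflect (fun i => q ^ i) (j+1)
  simp only [Nat.add_sub_cancel] at h2
  rw [h2]
  exact geo hq hq1 _

lemma GK_col {q : ℝ} (hq : 0 ≤ q) (hq1 : q < 1) (n i : ℕ) (hi : i < n) :
    ∑ j ∈ range n, GK q j i ≤ 1 / (1 - q) := by
  obtain ⟨m, rfl⟩ : ∃ m, n = i + m := ⟨n - i, by omega⟩
  rw [sum_range_add]
  have e1 : ∑ x ∈ range i, GK q x i = 0 := by
    apply sum_eq_zero
    intro x hx
    rw [mem_range] at hx
    have : ¬ (i ≤ x) := by omega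
    simp only [GK, if_neg this]
  rw [e1, zero_add]
  have e2 : ∑ x ∈ range m, GK q (i+x) i = ∑ x ∈ range m, q ^ x := by
    apply sum_congr rfl
    intro x _
    have h1 : i ≤ i + x := by omega
    have h2 : i + x - i = x := by omega
    simp only [GK, if_pos h1, h2]
  rw [e2]
  exact geo hq hq1 _

lemma sum_GK (q : ℝ) (n j : ℕ) (hj : j < n) (a : ℕ → ℝ) :
    ∑ i ∈ range n, GK q j i * a i = ∑ i ∈ range (j+1), q ^ (j - i) * a i := by
  obtain ⟨m, rfl⟩ : ∃ m, n = (j+1) + m := ⟨n - (j+1), by omega⟩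
  rw [sum_range_add]
  have e1 : ∑ x ∈ range m, GK q j (j+1+x) * a (j+1+x) = 0 := by
    apply sum_eq_zero
    intro x _
    have : ¬ (j + 1 + x ≤ j) := by omega
    simp only [GK, if_neg this, zero_mul]
  rw [e1, add_zero]
  apply sum_congr rfl
  intro i hi
  rw [mem_range] at hi
  have : i ≤ j := by omega
  simp only [GK, if_pos this]

/-- uniform decay of ratios gives the uniform finite bound -/
theorem FinGood_of_decay {z : ℂ} {C q : ℝ} (hC : 0 < C) (hq : 0 < q) (hq1 : q < 1)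
    (H : ∀ b : ℕ → ℂ, PM b → ∀ i n, ‖phi z b i‖ ≤ C * q ^ n * ‖phi z b (i+1+n)‖) :
    ∃ δ : ℝ, 0 < δ ∧ FinGood z δ := by
  set C2 : ℝ := max 1 (C / q) with hC2
  have hC2pos : 0 < C2 := lt_of_lt_of_le one_pos (le_max_left _ _)
  set A : ℝ := 1 / (1 - q) with hA
  have hApos : 0 < A := by
    rw [hA]
    have : 0 < 1 - q := by linarith
    positivity
  refine ⟨1 / (C * C2 * A ^ 2), by positivity, ?_⟩
  intro n b X hb hX
  have hne : ∀ k, phi z b k ≠ 0 := by
    intro k
    cases k with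
    | zero => simp
    | succ k =>
      have h1 := H b hb 0 k
      intro h0
      rw [show 0 + 1 + k = k + 1 by ring, h0] at h1
      simp at h1
      linarith
  have hpos : ∀ k, 0 < ‖phi z b k‖ := fun k => norm_pos_iff.2 (hne k)
  have hle : ∀ i j, i ≤ j → ‖phi z b i‖ ≤ C2 * q ^ (j - i) * ‖phi z b j‖ := by
    intro i j hij
    rcases Nat.eq_or_lt_of_le hij with h | h
    · subst h
      rw [Nat.sub_self, pow_zero, mul_one]
      calc ‖phi z b i‖ = 1 * ‖phi z b i‖ := (one_mul _).symm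
        _ ≤ _ := by gcongr; exact le_max_left _ _
    · obtain ⟨m, rfl⟩ : ∃ m, j = i + 1 + m := ⟨j - i - 1, by omega⟩
      have h1 := H b hb i m
      refine h1.trans ?_
      rw [show i + 1 + m - i = m + 1 by omega]
      apply mul_le_mul_of_nonneg_right _ (norm_nonneg _)
      calc C * q ^ m = (C / q) * q ^ (m+1) := by
            rw [pow_succ]; field_simp
        _ ≤ C2 * q ^ (m+1) := by gcongr; exact le_max_right _ _
  set r : ℕ → ℂ := res z b X with hr
  set W : ℕ → ℂ := fun k => phi z b k * X (k+1) - phi z b (k+1) * X k with hW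
  have hWle : ∀ k, ‖W k‖ ≤ ∑ i ∈ range (k+1), ‖phi z b i‖ * ‖r i‖ := by
    intro k
    induction k with
    | zero =>
      simp only [hW, hr, res]
      simp
    | succ k ih =>
      have e : W (k+1) = phi z b (k+1) * r (k+1) + b k * W k := by
        simp only [hW, hr, res]
        rw [show k + 1 + 1 = k + 2 by ring, phi_succ]
        ring
      rw [e, sum_range_succ]
      calc ‖phi z b (k+1) * r (k+1) + b k * W k‖
          ≤ ‖phi z b (k+1) * r (k+1)‖ + ‖b k * W k‖ := norm_add_le _ _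
        _ = ‖phi z b (k+1)‖ * ‖r (k+1)‖ + ‖W k‖ := by rw [norm_mul, norm_mul, hb.norm, one_mul]
        _ ≤ _ := by linarith
  set R : ℕ → ℝ := fun j => ∑ i ∈ range (j+1), q ^ (j - i) * ‖r i‖ with hR
  have hR0 : ∀ j, 0 ≤ R j := fun j => sum_nonneg (fun i _ => by positivity)
  have hWR : ∀ k, ‖W k‖ ≤ C2 * ‖phi z b k‖ * R k := by
    intro k
    refine (hWle k).trans ?_
    simp only [hR]
    rw [mul_sum]
    apply sum_le_sum
    intro i hi
    rw [mem_range] at hi
    calc ‖phi z b i‖ * ‖r i‖ ≤ (C2 * q ^ (k - i) * ‖phi z b k‖) * ‖r i‖ := by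
          gcongr
          exact hle i k (by omega)
      _ = _ := by ring
  have hT : ∀ m, m ≤ n → ‖X (n - m) / phi z b (n - m)‖
      ≤ ∑ j ∈ range m, ‖W (n - 1 - j)‖ / (‖phi z b (n - 1 - j)‖ * ‖phi z b (n - 1 - j + 1)‖) := by
    intro m
    induction m with
    | zero => intro _; simp [hX]
    | succ m ih =>
      intro hm
      have h1 := ih (by omega)
      obtain ⟨k, hk⟩ : ∃ k, n - m = k + 1 := ⟨n - m - 1, by omega⟩
      have hk1 : n - (m+1) = k := by omega
      have hk2 : n - 1 - m = k := by omega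
      rw [sum_range_succ, hk1, hk2]
      rw [hk] at h1
      have e : X k / phi z b k = X (k+1) / phi z b (k+1) - W k / (phi z b k * phi z b (k+1)) := by
        have n1 := hne k
        have n2 := hne (k+1)
        simp only [hW]
        field_simp
        ring
      rw [e]
      calc ‖X (k+1) / phi z b (k+1) - W k / (phi z b k * phi z b (k+1))‖
          ≤ ‖X (k+1) / phi z b (k+1)‖ + ‖W k / (phi z b k * phi z b (k+1))‖ := norm_sub_le _ _
        _ = ‖X (k+1) / phi z b (k+1)‖ + ‖W k‖ / (‖phi z b k‖ * ‖phi z b (k+1)‖) := by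
            rw [norm_div (W k), norm_mul]
        _ ≤ _ := by linarith
  have hXk : ∀ k, k < n → ‖X k‖ ≤ C * C2 * ∑ j ∈ range n, GK q j k * R j := by
    intro k hk
    have h1 := hT (n - k) (by omega)
    rw [show n - (n - k) = k by omega, norm_div, div_le_iff₀ (hpos k)] at h1
    refine h1.trans ?_
    -- reindex
    have h2 : ∑ j ∈ range n, GK q j k * R j = ∑ j ∈ range (n - k), q ^ (n - 1 - j - k) * R (n - 1 - j) := by
      rw [← sum_range_reflect (fun j => GK q j k * R j)]
      obtain ⟨m, hm⟩ : ∃ m, n = (n - k) + m := ⟨k, by omega⟩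
      have hm' : m = k := by omega
      subst hm'
      conv_lhs => rw [hm]
      rw [sum_range_add]
      have e1 : ∑ x ∈ range m, GK q (n - m + m - 1 - (n - m + x)) m * R (n - m + m - 1 - (n - m + x)) = 0 := by
        apply sum_eq_zero
        intro x hx
        rw [mem_range] at hx
        have : ¬ (m ≤ n - m + m - 1 - (n - m + x)) := by omega
        simp only [GK, if_neg this, zero_mul]
      rw [e1, add_zero]
      apply sum_congr rfl
      intro x hx
      rw [mem_range] at hx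
      have h3 : n - m + m - 1 - x = n - 1 - x := by omega
      have h4 : m ≤ n - 1 - x := by omega
      rw [h3]
      simp only [GK, if_pos h4]
    rw [h2, sum_mul, mul_sum]
    apply sum_le_sum
    intro j hj
    rw [mem_range] at hj
    obtain ⟨m, hm⟩ : ∃ m, n - 1 - j = k + m := ⟨n - 1 - j - k, by omega⟩
    rw [hm, show k + m - k = m by omega]
    have h3 := hWR (k+m)
    have h4 := H b hb k m
    rw [show k + 1 + m = k + m + 1 by ring] at h4
    rw [div_mul_eq_mul_div, div_le_iff₀ (mul_pos (hpos _) (hpos _))]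
    calc ‖W (k+m)‖ * ‖phi z b k‖
        ≤ (C2 * ‖phi z b (k+m)‖ * R (k+m)) * (C * q ^ m * ‖phi z b (k+m+1)‖) := by
          apply mul_le_mul h3 h4 (norm_nonneg _)
          have := hR0 (k+m)
          positivity
      _ = _ := by ring
  -- two applications of the Schur test
  have s1 : ∑ j ∈ range n, R j ^ 2 ≤ A ^ 2 * ∑ i ∈ range n, ‖r i‖ ^ 2 := by
    have h1 := schur n (GK q) (GK_nonneg hq.le) A hApos.le
      (fun j hj => GK_row hq.le hq1 n j hj) (fun i hi => GK_col hq.le hq1 n i hi)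
      (fun i => ‖r i‖)
    refine le_trans (le_of_eq ?_) h1
    apply sum_congr rfl
    intro j hj
    rw [mem_range] at hj
    rw [sum_GK q n j hj (fun i => ‖r i‖)]
  have s2 : ∑ k ∈ range n, (∑ j ∈ range n, GK q j k * R j) ^ 2 ≤ A ^ 2 * ∑ j ∈ range n, R j ^ 2 :=
    schur n (fun k j => GK q j k) (fun k j => GK_nonneg hq.le j k) A hApos.le
      (fun k hk => GK_col hq.le hq1 n k hk) (fun j hj => GK_row hq.le hq1 n j hj) R
  have s3 : ∑ k ∈ range n, ‖X k‖ ^ 2 ≤ (C * C2) ^ 2 * ∑ k ∈ range n, (∑ j ∈ range n, GK q j k * R j) ^ 2 := by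
    rw [mul_sum]
    apply sum_le_sum
    intro k hk
    rw [mem_range] at hk
    rw [← mul_pow]
    have := hXk k hk
    gcongr
  rw [div_pow, one_pow, one_div, ← div_eq_inv_mul, div_le_iff₀ (by positivity)]
  calc ∑ k ∈ range n, ‖X k‖ ^ 2
      ≤ (C * C2) ^ 2 * (A ^ 2 * (A ^ 2 * ∑ i ∈ range n, ‖r i‖ ^ 2)) := by
        refine s3.trans ?_
        gcongr
        refine s2.trans ?_
        gcongr
    _ = _ := by ring

end Pool.Agent.W681.FZ
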