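import Pool.Agent.W681.FZ6
import Pool.Agent.W681.FZ8
import Pool.Agent.W681.FZ9
import Pool.Agent.W681.FZ11

set_option autoImplicit false

open Metric Filter Topology

namespace Pool.Agent.W681.FZ

/-- the Feinberg-Zee spectrum -/
def Sig : Set ℂ := {z : ℂ | ∃ b : ℤ → ℂ, (∀ n : ℤ, b n = 1 ∨ b n = -1) ∧ ¬ Bij z b}

lemma not_mem_Sig {z : ℂ} : z ∉ Sig ↔ ∃ δ : ℝ, 0 < δ ∧ FinGood z δ := by
  constructor
  · intro h
    apply FinGood_of_Bij
    intro b hb
    by_contra h1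
    exact h ⟨b, hb, h1⟩
  · rintro ⟨δ, hδ, hG⟩ ⟨b, hb, h1⟩
    exact h1 (Bij_of_FinGood hG hδ b hb)

lemma res_perturb (z w : ℂ) (b X : ℕ → ℂ) (k : ℕ) :
    res w b X k = res z b X k - (w - z) * X k := by
  cases k with
  | zero => simp only [res]; ring
  | succ k => simp only [res]; ring

/-- good points form an open set -/
lemma FinGood_open {z w : ℂ} {δ : ℝ} (hδ : 0 < δ) (hG : FinGood z δ) (hw : ‖w - z‖ ≤ δ / 2) :
    FinGood w (δ / 2) := by
  intro n b X hb hX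
  have h1 := hG n b X hb hX
  have h2 : ∀ k, ‖res z b X k‖ ^ 2 ≤ 2 * ‖res w b X k‖ ^ 2 + 2 * (δ/2) ^ 2 * ‖X k‖ ^ 2 := by
    intro k
    have e : res z b X k = res w b X k + (w - z) * X k := by
      rw [res_perturb z w]; ring
    have h3 : ‖res z b X k‖ ≤ ‖res w b X k‖ + (δ/2) * ‖X k‖ := by
      rw [e]
      refine (norm_add_le _ _).trans ?_
      rw [norm_mul]
      gcongr
    calc ‖res z b X k‖ ^ 2 ≤ (‖res w b X k‖ + (δ/2) * ‖X k‖) ^ 2 := by gcongr
      _ ≤ 2 * ‖res w b X k‖ ^ 2 + 2 * ((δ/2) * ‖X k‖) ^ 2 := by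
          nlinarith [sq_nonneg (‖res w b X k‖ - (δ/2) * ‖X k‖)]
      _ = _ := by ring
  have h3 : ∑ k ∈ Finset.range n, ‖res z b X k‖ ^ 2
      ≤ 2 * ∑ k ∈ Finset.range n, ‖res w b X k‖ ^ 2
        + 2 * (δ/2) ^ 2 * ∑ k ∈ Finset.range n, ‖X k‖ ^ 2 := by
    rw [Finset.mul_sum, Finset.mul_sum, ← Finset.sum_add_distrib]
    exact Finset.sum_le_sum (fun k _ => h2 k)
  have h4 : 0 ≤ ∑ k ∈ Finset.range n, ‖X k‖ ^ 2 := Finset.sum_nonneg (fun _ _ => by positivity)
  nlinarith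

lemma Sig_closed : IsClosed Sig := by
  rw [← isOpen_compl_iff, Metric.isOpen_iff]
  intro z hz
  obtain ⟨δ, hδ, hG⟩ := not_mem_Sig.1 hz
  refine ⟨δ/2, by positivity, fun w hw => ?_⟩
  rw [mem_ball, dist_eq_norm] at hw
  exact not_mem_Sig.2 ⟨δ/2, by positivity, FinGood_open hδ hG hw.le⟩

/-- the Feinberg-Zee spectrum is the closure of its interior -/
theorem main : closure (interior Sig) = Sig := by
  apply Set.Subset.antisymm
  · exact closure_minimal interior_subset Sig_closed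
  · intro z0 hz0
    by_contra hcl
    obtain ⟨r0, hr0, hball⟩ := Metric.isOpen_iff.1 isClosed_closure.isOpen_compl z0 hcl
    have hdisj : ∀ z ∈ ball z0 r0, z ∉ interior Sig := fun z hz h =>
      hball hz (subset_closure h)
    -- good points are dense in the ball
    have hdense : ∀ z ∈ ball z0 r0, ∀ ε : ℝ, 0 < ε → ∃ w, ‖w - z‖ < ε ∧ w ∉ Sig := by
      intro z hz ε hε
      by_contra hno
      push Not at hno
      apply hdisj z hz
      rw [mem_interior_iff_mem_nhds, Metric.mem_nhds_iff]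
      refine ⟨ε, hε, fun w hw => ?_⟩
      rw [mem_ball, dist_eq_norm] at hw
      exact hno w hw
    have hA : ∀ z ∈ ball z0 r0, ∀ c : ℕ → ℂ, PM c → ∀ N, 1 ≤ ‖z * phi z c (N+1)‖ := by
      intro z hz c hc N
      by_contra hlt
      push Not at hlt
      have hcont : Continuous (fun w : ℂ => ‖w * phi w c (N+1)‖) :=
        (continuous_id.mul (phi_diff c (N+1)).continuous).norm
      have hnh : {w : ℂ | ‖w * phi w c (N+1)‖ < 1} ∈ 𝓝 z :=
        (isOpen_lt hcont continuous_const).mem_nhds hlt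
      obtain ⟨ε, hε, hsub⟩ := Metric.mem_nhds_iff.1 hnh
      obtain ⟨w, hw1, hw2⟩ := hdense z hz ε hε
      obtain ⟨δ, hδ, hG⟩ := not_mem_Sig.1 hw2
      have h1 := one_le hG hδ c hc N
      have h2 : ‖w * phi w c (N+1)‖ < 1 := hsub (by rw [mem_ball, dist_eq_norm]; exact hw1)
      linarith
    obtain ⟨zs, hzs1, hzs2⟩ := hdense z0 (mem_ball_self hr0) (r0/16) (by positivity)
    obtain ⟨δ, hδ, hG⟩ := not_mem_Sig.1 hzs2
    obtain ⟨C, q, hC, hq, hq1, H⟩ := transfer hr0 (by rw [norm_sub_rev]; exact hzs1.le) hA hδ hG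
    exact (not_mem_Sig.2 (FinGood_of_decay hC hq hq1 H)) hz0

end Pool.Agent.W681.FZ
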