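import Mathlib

set_option autoImplicit false

open Finset

namespace Pool.Agent.W681.FZ

/-- all entries are plus or minus one -/
def PM (b : ℕ → ℂ) : Prop := ∀ n, b n = 1 ∨ b n = -1

/-- characteristic polynomial of the first n sites, links b 0, b 1, ... -/
noncomputable def phi (z : ℂ) (b : ℕ → ℂ) : ℕ → ℂ
  | 0 => 1
  | 1 => z
  | (n+2) => z * phi z b (n+1) - b n * phi z b n

/-- shifted link sequence -/
def sh (a : ℕ) (b : ℕ → ℂ) : ℕ → ℂ := fun i => b (a + i)

/-- characteristic polynomial of the sites a, ..., a + n - 1 -/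
noncomputable def D (z : ℂ) (b : ℕ → ℂ) (a n : ℕ) : ℂ := phi z (sh a b) n

/-- residual of a vector on a half line -/
def res (z : ℂ) (b X : ℕ → ℂ) : ℕ → ℂ
  | 0 => X 1 - z * X 0
  | (k+1) => b k * X k + X (k+2) - z * X (k+1)

/-- uniform lower bound on all finite windows -/
def FinGood (z : ℂ) (δ : ℝ) : Prop :=
  ∀ (n : ℕ) (b X : ℕ → ℂ), PM b → X n = 0 →
    δ ^ 2 * ∑ k ∈ range n, ‖X k‖ ^ 2 ≤ ∑ k ∈ range n, ‖res z b X k‖ ^ 2

lemma PM.sh {b : ℕ → ℂ} (hb : PM b) (a : ℕ) : PM (sh a b) := fun n => hb (a + n)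

lemma PM.norm {b : ℕ → ℂ} (hb : PM b) (n : ℕ) : ‖b n‖ = 1 := by
  rcases hb n with h | h <;> simp [h]

lemma PM.ne {b : ℕ → ℂ} (hb : PM b) (n : ℕ) : b n ≠ 0 := by
  rcases hb n with h | h <;> simp [h]

lemma PM.sq {b : ℕ → ℂ} (hb : PM b) (n : ℕ) : b n * b n = 1 := by
  rcases hb n with h | h <;> simp [h]

@[simp] lemma phi_zero (z : ℂ) (b : ℕ → ℂ) : phi z b 0 = 1 := by simp [phi]
@[simp] lemma phi_one (z : ℂ) (b : ℕ → ℂ) : phi z b 1 = z := by simp [phi]
lemma phi_succ (z : ℂ) (b : ℕ → ℂ) (n : ℕ) :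
    phi z b (n+2) = z * phi z b (n+1) - b n * phi z b n := by simp [phi]

@[simp] lemma D_zero (z : ℂ) (b : ℕ → ℂ) (a : ℕ) : D z b a 0 = 1 := by simp [D]
@[simp] lemma D_one (z : ℂ) (b : ℕ → ℂ) (a : ℕ) : D z b a 1 = z := by simp [D]
lemma D_succ (z : ℂ) (b : ℕ → ℂ) (a n : ℕ) :
    D z b a (n+2) = z * D z b a (n+1) - b (a+n) * D z b a n := by
  simp [D, phi_succ, sh]

lemma sh_sh (a c : ℕ) (b : ℕ → ℂ) : sh a (sh c b) = sh (c + a) b := by
  funext i; simp [sh, add_assoc]

lemma sh_zero (b : ℕ → ℂ) : sh 0 b = b := by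
  funext i; simp [sh]

lemma D_sh (z : ℂ) (b : ℕ → ℂ) (c a n : ℕ) : D z (sh c b) a n = D z b (c + a) n := by
  simp [D, sh_sh]

lemma D_origin (z : ℂ) (b : ℕ → ℂ) (n : ℕ) : D z b 0 n = phi z b n := by
  simp [D, sh_zero]

/-- values only depend on the links inside the window -/
lemma phi_congr (z : ℂ) (b c : ℕ → ℂ) (n : ℕ) (h : ∀ i, i + 1 < n → b i = c i) :
    phi z b n = phi z c n := by
  induction n using Nat.strong_induction_on with
  | _ n ih =>
    match n, h, ih with
    | 0, _, _ => simp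
    | 1, _, _ => simp
    | (n+2), h, ih =>
      rw [phi_succ, phi_succ, ih (n+1) (by omega) (fun i hi => h i (by omega)),
        ih n (by omega) (fun i hi => h i (by omega)), h n (by omega)]

/-- left recursion -/
lemma D_left (z : ℂ) (b : ℕ → ℂ) (a n : ℕ) :
    D z b a (n+2) = z * D z b (a+1) (n+1) - b a * D z b (a+2) n := by
  induction n using Nat.strong_induction_on with
  | _ n ih =>
    match n, ih with
    | 0, _ => simp [D_succ]
    | 1, _ =>
      simp only [D_succ, D_zero, D_one]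
      simp
      ring
    | (n+2), ih =>
      have h1 := ih (n+1) (by omega)
      have h0 := ih n (by omega)
      have e1 : a + 1 + (n + 1) = a + (n + 2) := by ring
      have e2 : a + 2 + n = a + (n + 2) := by ring
      rw [D_succ z b a (n+2), h0, show n + 2 + 1 = (n+1) + 2 by ring, h1,
        D_succ z b (a+1) (n+1), D_succ z b (a+2) n, e1, e2]
      ring

/-- concatenation formula -/
lemma D_concat (z : ℂ) (b : ℕ → ℂ) (a m n : ℕ) :
    D z b a (m + 1 + (n + 1)) = D z b a (m+1) * D z b (a + (m + 1)) (n+1)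
      - b (a + m) * D z b a m * D z b (a + (m + 2)) n := by
  induction n using Nat.strong_induction_on with
  | _ n ih =>
    match n, ih with
    | 0, _ =>
      have : m + 1 + (0 + 1) = m + 2 := by ring
      rw [this, D_succ]
      simp
      ring
    | 1, _ =>
      have h1 : m + 1 + (1 + 1) = (m + 1) + 2 := by ring
      have h2 : a + (m + 1) + 0 = a + (m + 1) := by ring
      rw [h1, D_succ z b a (m+1), show m + 1 + 1 = m + 2 by ring, D_succ z b a m,
        show (1:ℕ) + 1 = 0 + 2 by ring, D_succ z b (a + (m+1)) 0, h2]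
      simp
      ring
    | (n+2), ih =>
      have h1 := ih (n+1) (by omega)
      have h0 := ih n (by omega)
      have e : m + 1 + (n + 2 + 1) = (m + 1 + (n + 1)) + 2 := by ring
      have e1 : m + 1 + (n + 1) + 1 = m + 1 + (n + 1 + 1) := by ring
      have e2 : a + (m + 1) + (n + 1) = a + (m + 1 + (n + 1)) := by ring
      have e3 : a + (m + 2) + n = a + (m + 1 + (n + 1)) := by ring
      rw [e, D_succ z b a (m + 1 + (n + 1)), e1, h1, h0,
        show n + 2 + 1 = (n+1) + 2 by ring, D_succ z b (a + (m+1)) (n+1),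
        D_succ z b (a + (m + 2)) n, e2, e3]
      ring

/-- determinant identity -/
lemma D_det (z : ℂ) (b : ℕ → ℂ) (a n : ℕ) :
    D z b a (n+1) * D z b (a+1) (n+1) - D z b a (n+2) * D z b (a+1) n
      = ∏ i ∈ range (n+1), b (a + i) := by
  induction n with
  | zero =>
    simp [D_succ]
  | succ n ih =>
    have e : a + 1 + n = a + (n + 1) := by ring
    rw [prod_range_succ, ← ih, show n + 1 + 2 = (n + 1) + 2 by ring, D_succ z b a (n+1),
      show n + 1 + 1 = n + 2 by ring, D_succ z b (a+1) n, e]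
    ring

/-- reversal of a window -/
lemma phi_rev (z : ℂ) (b : ℕ → ℂ) (K n : ℕ) (hn : n ≤ K + 2) :
    phi z (fun i => b (K - i)) n = D z b (K + 2 - n) n := by
  induction n using Nat.strong_induction_on with
  | _ n ih =>
    match n, hn, ih with
    | 0, _, _ => simp
    | 1, _, _ => simp
    | (n+2), hn, ih =>
      have h1 := ih (n+1) (by omega) (by omega)
      have h0 := ih n (by omega) (by omega)
      have e1 : K + 2 - (n + 2) + 1 = K + 2 - (n + 1) := by omega
      have e2 : K + 2 - (n + 2) + 2 = K + 2 - n := by omega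
      have e3 : K + 2 - (n + 2) = K - n := by omega
      rw [phi_succ, h1, h0, D_left, e1, e2, e3]

/-- solutions of the recursion in terms of window polynomials -/
lemma sol_formula (z : ℂ) (b x : ℕ → ℂ) (hx : ∀ k, x (k+2) = z * x (k+1) - b k * x k)
    (a i : ℕ) :
    x (a + 2 + i) = D z b (a+1) (i+1) * x (a+1) - b a * D z b (a+2) i * x a := by
  induction i using Nat.strong_induction_on with
  | _ i ih =>
    match i, ih with
    | 0, _ => simp [hx]
    | 1, _ =>
      have e : a + 2 + 1 = (a + 1) + 2 := by ring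
      rw [e, hx (a+1), show a + 1 + 1 = a + 2 by ring, hx a, show (1:ℕ) + 1 = 0 + 2 by ring,
        D_succ]
      simp
      ring
    | (i+2), ih =>
      have h1 := ih (i+1) (by omega)
      have h0 := ih i (by omega)
      have e : a + 2 + (i + 2) = (a + 2 + i) + 2 := by ring
      have e1 : a + 2 + i + 1 = a + 2 + (i + 1) := by ring
      have e2 : a + 1 + (i + 1) = a + 2 + i := by ring
      rw [e, hx (a + 2 + i), e1, h1, h0, show i + 2 + 1 = (i + 1) + 2 by ring,
        D_succ z b (a+1) (i+1), D_succ z b (a+2) i, e2]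
      ring

end Pool.Agent.W681.FZ
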