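import Pool.Agent.W681.FZ1

set_option autoImplicit false

open Finset

namespace Pool.Agent.W681.FZ

variable {z : ℂ} {δ : ℝ}

lemma growth0 (h : FinGood z δ) (b : ℕ → ℂ) (hb : PM b) (m : ℕ) :
    δ ^ 2 * ∑ k ∈ range (m+1), ‖phi z b k‖ ^ 2 ≤ ‖phi z b (m+1)‖ ^ 2 := by
  set X : ℕ → ℂ := fun k => if k < m + 1 then phi z b k else 0 with hX
  have h1 := h (m+1) b X hb (by simp [hX])
  have h2 : ∑ k ∈ range (m+1), ‖X k‖ ^ 2 = ∑ k ∈ range (m+1), ‖phi z b k‖ ^ 2 := by
    apply sum_congr rfl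
    intro k hk
    rw [mem_range] at hk
    simp only [hX, if_pos hk]
  have h3 : ∀ k, k < m → res z b X k = 0 := by
    intro k hk
    match k, hk with
    | 0, hk =>
      have h1 : 1 < m + 1 := by omega
      have h0 : 0 < m + 1 := by omega
      simp only [res, hX, if_pos h1, if_pos h0, phi_one, phi_zero]
      ring
    | (j+1), hk =>
      have h1 : j < m + 1 := by omega
      have h2 : j + 2 < m + 1 := by omega
      have h3 : j + 1 < m + 1 := by omega
      simp only [res, hX, h1, h2, h3, if_true, phi_succ]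
      ring
  have h4 : ‖res z b X m‖ = ‖phi z b (m+1)‖ := by
    match m, hX with
    | 0, hX => simp [res, hX]
    | (j+1), hX =>
      have h1 : j < j + 1 + 1 := by omega
      have h2 : ¬ (j + 2 < j + 1 + 1) := by omega
      have h3 : j + 1 < j + 1 + 1 := by omega
      simp only [res, hX, h1, h2, h3, if_true, if_false]
      rw [show j + 1 + 1 = j + 2 by ring, phi_succ, ← norm_neg]
      congr 1
      ring
  rw [h2] at h1
  refine h1.trans ?_
  rw [sum_range_succ, sum_eq_zero, h4]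
  · simp
  · intro k hk
    rw [mem_range] at hk
    simp [h3 k hk]

lemma growth (h : FinGood z δ) (b : ℕ → ℂ) (hb : PM b) (j k : ℕ) :
    δ ^ 2 * (1 + δ ^ 2) ^ k * ‖phi z b j‖ ^ 2 ≤ ‖phi z b (j+1+k)‖ ^ 2 := by
  have key : ∀ k, (1 + δ ^ 2) ^ k * ‖phi z b j‖ ^ 2 ≤ ∑ i ∈ range (j+1+k), ‖phi z b i‖ ^ 2 := by
    intro k
    induction k with
    | zero =>
      rw [pow_zero, one_mul, add_zero]
      exact single_le_sum (f := fun i => ‖phi z b i‖ ^ 2) (fun i _ => by positivity)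
        (self_mem_range_succ j)
    | succ k ih =>
      have h1 := growth0 h b hb (j + k)
      rw [show j + k + 1 = j + 1 + k by ring] at h1
      rw [show j + 1 + (k+1) = (j + 1 + k) + 1 by ring, sum_range_succ]
      calc (1 + δ ^ 2) ^ (k+1) * ‖phi z b j‖ ^ 2
          = (1 + δ ^ 2) * ((1 + δ ^ 2) ^ k * ‖phi z b j‖ ^ 2) := by ring
        _ ≤ (1 + δ ^ 2) * ∑ i ∈ range (j+1+k), ‖phi z b i‖ ^ 2 := by gcongr
        _ ≤ _ := by linarith
  have h1 := growth0 h b hb (j + k)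
  rw [show j + k + 1 = j + 1 + k by ring] at h1
  calc δ ^ 2 * (1 + δ ^ 2) ^ k * ‖phi z b j‖ ^ 2
      = δ ^ 2 * ((1 + δ ^ 2) ^ k * ‖phi z b j‖ ^ 2) := by ring
    _ ≤ δ ^ 2 * ∑ i ∈ range (j+1+k), ‖phi z b i‖ ^ 2 := by gcongr; exact key k
    _ ≤ _ := h1

lemma D_growth (h : FinGood z δ) (b : ℕ → ℂ) (hb : PM b) (a j k : ℕ) :
    δ ^ 2 * (1 + δ ^ 2) ^ k * ‖D z b a j‖ ^ 2 ≤ ‖D z b a (j+1+k)‖ ^ 2 :=
  growth h (sh a b) (hb.sh a) j k

lemma D_ne (h : FinGood z δ) (hδ : 0 < δ) (b : ℕ → ℂ) (hb : PM b) (a n : ℕ) :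
    D z b a n ≠ 0 := by
  cases n with
  | zero => simp
  | succ n =>
    have := D_growth h b hb a 0 n
    rw [D_zero, norm_one, one_pow, mul_one, show 0 + 1 + n = n + 1 by ring] at this
    intro h0
    rw [h0, norm_zero] at this
    have : 0 < δ ^ 2 * (1 + δ ^ 2) ^ n := by positivity
    norm_num at *
    linarith

lemma D_right (h : FinGood z δ) (hδ : 0 < δ) (b : ℕ → ℂ) (hb : PM b) (a n : ℕ) :
    δ * ‖D z b a n‖ ≤ ‖D z b a (n+1)‖ := by
  have := D_growth h b hb a n 0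
  rw [pow_zero, mul_one, add_zero, ← mul_pow] at this
  exact (pow_le_pow_iff_left₀ (by positivity) (by positivity) (by norm_num)).1 this

/-- decoupling estimate, origin version -/
lemma phi_pair (h : FinGood z δ) (hδ : 0 < δ) (b : ℕ → ℂ) (hb : PM b) (m n : ℕ) :
    δ * ‖phi z b m‖ * ‖D z b (m+1) (n+1)‖ ≤ ‖phi z b (m+1+(n+1))‖ := by
  have hv : D z b (m+1) (n+1) ≠ 0 := D_ne h hδ b hb _ _
  set c : ℂ := phi z b (m+1+(n+1)) / D z b (m+1) (n+1) with hc
  set X : ℕ → ℂ := fun k => if k < m + 1 then phi z b k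
    else phi z b k - c * D z b (m+1) (k - (m+1)) with hX
  have hXl : ∀ k, k < m + 1 → X k = phi z b k := fun k hk => by simp only [hX, if_pos hk]
  have hXr : ∀ i, X (m + 1 + i) = phi z b (m+1+i) - c * D z b (m+1) i := by
    intro i
    have h1 : ¬ (m + 1 + i < m + 1) := by omega
    have h2 : m + 1 + i - (m + 1) = i := by omega
    simp only [hX, if_neg h1, h2]
  have hend : X (m+1+(n+1)) = 0 := by
    rw [hXr, hc, div_mul_cancel₀ _ hv, sub_self]
  have h1 := h (m+1+(n+1)) b X hb hend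
  have hrl : ∀ k, k < m → res z b X k = 0 := by
    intro k hk
    match k, hk with
    | 0, hk =>
      rw [res, hXl 1 (by omega), hXl 0 (by omega)]
      simp
    | (j+1), hk =>
      rw [res, hXl _ (by omega), hXl _ (by omega), hXl _ (by omega), phi_succ]
      ring
  have hrm : res z b X m = -c := by
    match m, hXl, hXr with
    | 0, hXl, hXr =>
      have := hXr 0
      simp only [D_zero] at this
      rw [res, hXl 0 (by omega), show (1:ℕ) = 0 + 1 + 0 by ring, this]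
      simp
    | (j+1), hXl, hXr =>
      have := hXr 0
      simp only [D_zero, add_zero] at this
      rw [res, hXl j (by omega), hXl (j+1) (by omega), show j + 2 = j + 1 + 1 by ring, this,
        show j + 1 + 1 = j + 2 by ring, phi_succ]
      ring
  have hrr : ∀ i, res z b X (m + 1 + i) = 0 := by
    intro i
    match i with
    | 0 =>
      have e0 := hXr 0
      have e1 := hXr 1
      simp only [D_zero, add_zero, D_one] at e0 e1
      rw [add_zero, res, hXl m (by omega), e0, show m + 2 = m + 1 + 1 by ring, e1,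
        show m + 1 + 1 = m + 2 by ring, phi_succ]
      ring
    | (i+1) =>
      have e0 := hXr i
      have e1 := hXr (i+1)
      have e2 := hXr (i+2)
      rw [show m + 1 + (i+1) = (m + 1 + i) + 1 by ring, res, e0, 
        show m + 1 + i + 2 = m + 1 + (i+2) by ring, e2, 
        show m + 1 + i + 1 = m + 1 + (i+1) by ring, e1,
        show m + 1 + (i+2) = (m + 1 + i) + 2 by ring, phi_succ, D_succ,
        show m + 1 + i + 1 = m + 1 + (i+1) by ring]
      ring
  have hsum : ∑ k ∈ range (m+1+(n+1)), ‖res z b X k‖ ^ 2 = ‖c‖ ^ 2 := by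
    rw [sum_range_add, sum_range_succ, hrm]
    rw [sum_eq_zero, sum_eq_zero]
    · simp
    · intro k hk; simp [hrr]
    · intro k hk; rw [mem_range] at hk; simp [hrl k hk]
  have hge : ‖phi z b m‖ ^ 2 ≤ ∑ k ∈ range (m+1+(n+1)), ‖X k‖ ^ 2 := by
    have := single_le_sum (f := fun i => ‖X i‖ ^ 2) (s := range (m+1+(n+1)))
      (fun i _ => by positivity) (mem_range.2 (by omega : m < m+1+(n+1)))
    simpa [hXl m (by omega)] using this
  rw [hsum] at h1
  have h2 : (δ * ‖phi z b m‖) ^ 2 ≤ ‖c‖ ^ 2 := by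
    rw [mul_pow]
    refine le_trans ?_ h1
    gcongr
  have h3 : δ * ‖phi z b m‖ ≤ ‖c‖ :=
    (pow_le_pow_iff_left₀ (by positivity) (by positivity) (by norm_num)).1 h2
  rw [hc, norm_div, le_div_iff₀ (by positivity)] at h3
  exact h3

lemma D_pair (h : FinGood z δ) (hδ : 0 < δ) (b : ℕ → ℂ) (hb : PM b) (a m n : ℕ) :
    δ * ‖D z b a m‖ * ‖D z b (a+(m+1)) (n+1)‖ ≤ ‖D z b a (m+1+(n+1))‖ := by
  have := phi_pair h hδ (sh a b) (hb.sh a) m n
  rwa [D_sh] at this

lemma D_lft (h : FinGood z δ) (hδ : 0 < δ) (b : ℕ → ℂ) (hb : PM b) (a n : ℕ) :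
    δ * ‖D z b (a+1) n‖ ≤ ‖D z b a (n+1)‖ := by
  cases n with
  | zero =>
    have := D_right h hδ b hb a 0
    simpa using this
  | succ n =>
    have := D_pair h hδ b hb a 0 n
    rw [D_zero, norm_one, mul_one] at this
    rw [show 0 + 1 + (n + 1) = n + 1 + 1 by ring] at this
    simpa using this

lemma D_up (h : FinGood z δ) (hδ : 0 < δ) (b : ℕ → ℂ) (hb : PM b) (a m : ℕ) :
    ‖D z b a (m+1)‖ ≤ (‖z‖ + 1/δ) * ‖D z b a m‖ := by
  cases m with
  | zero => simp; positivity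
  | succ m =>
    have h1 := D_right h hδ b hb a m
    rw [show m + 1 + 1 = m + 2 by ring, D_succ]
    calc ‖z * D z b a (m+1) - b (a+m) * D z b a m‖
        ≤ ‖z * D z b a (m+1)‖ + ‖b (a+m) * D z b a m‖ := norm_sub_le _ _
      _ = ‖z‖ * ‖D z b a (m+1)‖ + ‖D z b a m‖ := by
          rw [norm_mul, norm_mul, hb.norm, one_mul]
      _ ≤ ‖z‖ * ‖D z b a (m+1)‖ + 1/δ * ‖D z b a (m+1)‖ := by
          gcongr
          rw [one_div, ← div_eq_inv_mul, le_div_iff₀ hδ]
          linarith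
      _ = _ := by ring

lemma D_K (h : FinGood z δ) (hδ : 0 < δ) (b : ℕ → ℂ) (hb : PM b) (a m n : ℕ) :
    ‖D z b a (m+1)‖ * ‖D z b (a+(m+1)) (n+1)‖
      ≤ ((‖z‖ + 1/δ)/δ) * ‖D z b a (m+1+(n+1))‖ := by
  have h1 := D_up h hδ b hb a m
  have h2 := D_pair h hδ b hb a m n
  have hpos : 0 < ‖z‖ + 1/δ := by positivity
  calc ‖D z b a (m+1)‖ * ‖D z b (a+(m+1)) (n+1)‖
      ≤ ((‖z‖ + 1/δ) * ‖D z b a m‖) * ‖D z b (a+(m+1)) (n+1)‖ := by gcongr
    _ = ((‖z‖ + 1/δ)/δ) * (δ * ‖D z b a m‖ * ‖D z b (a+(m+1)) (n+1)‖) := by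
        field_simp
    _ ≤ _ := by gcongr

end Pool.Agent.W681.FZ
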