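import Pool.Agent.W681.FZ1

set_option autoImplicit false

open Finset

namespace Pool.Agent.W681.FZ

/-- the lower bound with a boundary term -/
def Bd (z : ℂ) (δ ε : ℝ) : Prop :=
  ∀ (n : ℕ) (b X : ℕ → ℂ), PM b → X n = 0 →
    δ ^ 2 * ∑ k ∈ range n, ‖X k‖ ^ 2 ≤ ∑ k ∈ range n, ‖res z b X k‖ ^ 2
      + ε * max (‖X 0‖ ^ 2) (‖X (n-1)‖ ^ 2)

/-- sign sequence of the reflection -/
noncomputable def tau (b : ℕ → ℂ) (m : ℕ) : ℕ → ℂ
  | 0 => - b m
  | (j+1) => b (m - 1 - j) * tau b m j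

lemma tau_norm {b : ℕ → ℂ} (hb : PM b) (m j : ℕ) : ‖tau b m j‖ = 1 := by
  induction j with
  | zero => simp [tau, hb.norm]
  | succ j ih => simp [tau, hb.norm, ih]

noncomputable def bR (b : ℕ → ℂ) (m : ℕ) : ℕ → ℂ := fun k =>
  if k ≤ m then b k else if k = m + 1 then 1 else b (2 * m + 1 - k)

noncomputable def XR (b X : ℕ → ℂ) (m : ℕ) : ℕ → ℂ := fun k =>
  if k ≤ m then X k else if k = m + 1 then 0 else
    if k ≤ 2 * m + 2 then tau b m (k - (m + 2)) * X (2 * m + 2 - k) else 0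

lemma bR_PM {b : ℕ → ℂ} (hb : PM b) (m : ℕ) : PM (bR b m) := by
  intro k
  unfold bR
  split_ifs
  · exact hb _
  · exact Or.inl rfl
  · exact hb _

lemma bR_lo {b : ℕ → ℂ} {m k : ℕ} (h : k ≤ m) : bR b m k = b k := by
  simp only [bR, if_pos h]

lemma bR_hi {b : ℕ → ℂ} {m j : ℕ} : bR b m (m + 2 + j) = b (m - 1 - j) := by
  have h1 : ¬ (m + 2 + j ≤ m) := by omega
  have h2 : ¬ (m + 2 + j = m + 1) := by omega
  have h3 : 2 * m + 1 - (m + 2 + j) = m - 1 - j := by omega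
  simp only [bR, if_neg h1, if_neg h2, h3]

lemma XR_lo {b X : ℕ → ℂ} {m k : ℕ} (h : k ≤ m) : XR b X m k = X k := by
  simp only [XR, if_pos h]

lemma XR_mid {b X : ℕ → ℂ} {m : ℕ} : XR b X m (m+1) = 0 := by
  have h1 : ¬ (m + 1 ≤ m) := by omega
  simp only [XR, if_neg h1, if_true]

lemma XR_hi {b X : ℕ → ℂ} {m j : ℕ} (h : j ≤ m) :
    XR b X m (m + 2 + j) = tau b m j * X (m - j) := by
  have h1 : ¬ (m + 2 + j ≤ m) := by omega
  have h2 : ¬ (m + 2 + j = m + 1) := by omega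
  have h3 : m + 2 + j ≤ 2 * m + 2 := by omega
  have h4 : m + 2 + j - (m + 2) = j := by omega
  have h5 : 2 * m + 2 - (m + 2 + j) = m - j := by omega
  simp only [XR, if_neg h1, if_neg h2, if_pos h3, h4, h5]

lemma XR_end {b X : ℕ → ℂ} {m : ℕ} : XR b X m (m + 2 + (m + 1)) = 0 := by
  have h1 : ¬ (m + 2 + (m + 1) ≤ m) := by omega
  have h2 : ¬ (m + 2 + (m + 1) = m + 1) := by omega
  have h3 : ¬ (m + 2 + (m + 1) ≤ 2 * m + 2) := by omega
  simp only [XR, if_neg h1, if_neg h2, if_neg h3]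

lemma resR_lo {z : ℂ} {b X : ℕ → ℂ} {m : ℕ} (hX : X (m+1) = 0) (k : ℕ) (hk : k ≤ m) :
    res z (bR b m) (XR b X m) k = res z b X k := by
  have hXR : ∀ i, i ≤ m + 1 → XR b X m i = X i := by
    intro i hi
    rcases Nat.lt_or_ge m i with h | h
    · have : i = m + 1 := by omega
      rw [this, XR_mid, hX]
    · exact XR_lo h
  match k, hk with
  | 0, hk =>
    simp only [res]
    rw [hXR 1 (by omega), hXR 0 (by omega)]
  | (k+1), hk =>
    simp only [res]
    rw [hXR k (by omega), hXR (k+1) (by omega), hXR (k+2) (by omega), bR_lo (by omega)]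

lemma resR_mid {z : ℂ} {b X : ℕ → ℂ} {m : ℕ} :
    res z (bR b m) (XR b X m) (m+1) = 0 := by
  have := XR_hi (b := b) (X := X) (m := m) (j := 0) (by omega)
  simp only [res]
  rw [bR_lo le_rfl, XR_lo le_rfl, XR_mid, show m + 2 = m + 2 + 0 by ring, this]
  simp [tau]

lemma resR_hi {z : ℂ} {b X : ℕ → ℂ} {m : ℕ} (hX : X (m+1) = 0) (j : ℕ) (hj : j ≤ m) :
    res z (bR b m) (XR b X m) (m + 2 + j) = tau b m j * res z b X (m - j) := by
  -- value to the right
  have hR : XR b X m (m + 2 + (j + 1)) = if j = m then 0 else tau b m (j+1) * X (m - (j+1)) := by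
    split_ifs with h
    · subst h; exact XR_end
    · exact XR_hi (by omega)
  -- contribution from the left
  have hL : bR b m (m + 1 + j) * XR b X m (m + 1 + j) = tau b m j * X (m - j + 1) := by
    cases j with
    | zero =>
      rw [add_zero, XR_mid, Nat.sub_zero, hX]
      simp
    | succ j =>
      rw [show m + 1 + (j+1) = m + 2 + j by ring, bR_hi, XR_hi (by omega)]
      rw [show m - (j+1) + 1 = m - j by omega]
      simp only [tau]
      ring
  have hC : XR b X m (m + 2 + j) = tau b m j * X (m - j) := XR_hi hj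
  rw [show m + 2 + j = (m + 1 + j) + 1 by ring]
  simp only [res]
  rw [hL, show m + 1 + j + 2 = m + 2 + (j+1) by ring, hR,
    show m + 1 + j + 1 = m + 2 + j by ring, hC]
  split_ifs with h
  · subst h
    simp [res]
    ring
  · obtain ⟨i, hi⟩ : ∃ i, m - j = i + 1 := ⟨m - j - 1, by omega⟩
    rw [hi]
    simp only [res, tau]
    rw [show m - (j+1) = i by omega, show m - 1 - j = i by omega,
      show i + 1 + 1 = i + 2 by ring]
    ring

lemma sum_split (f : ℕ → ℝ) (m : ℕ) :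
    ∑ k ∈ range (m + 2 + (m + 1)), f k = ∑ k ∈ range (m+1), f k + f (m+1)
      + ∑ j ∈ range (m+1), f (m + 2 + j) := by
  rw [sum_range_add, show m + 2 = (m + 1) + 1 by ring, sum_range_succ]

lemma Bd_half {z : ℂ} {δ ε : ℝ} (hε : 0 ≤ ε) (h : Bd z δ ε) : Bd z δ (ε/2) := by
  intro n b X hb hX
  cases n with
  | zero =>
    have := h 0 b X hb hX
    simp [hX]
  | succ m =>
    have h1 := h (m + 2 + (m + 1)) (bR b m) (XR b X m) (bR_PM hb m) XR_end
    rw [sum_split, sum_split] at h1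
    have e1 : ∑ k ∈ range (m+1), ‖XR b X m k‖ ^ 2 = ∑ k ∈ range (m+1), ‖X k‖ ^ 2 := by
      apply sum_congr rfl
      intro k hk
      rw [mem_range] at hk
      rw [XR_lo (by omega)]
    have e2 : ∑ k ∈ range (m+1), ‖res z (bR b m) (XR b X m) k‖ ^ 2
        = ∑ k ∈ range (m+1), ‖res z b X k‖ ^ 2 := by
      apply sum_congr rfl
      intro k hk
      rw [mem_range] at hk
      rw [resR_lo hX k (by omega)]
    have e3 : ∑ j ∈ range (m+1), ‖XR b X m (m + 2 + j)‖ ^ 2 = ∑ k ∈ range (m+1), ‖X k‖ ^ 2 := by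
      rw [← sum_range_reflect (fun k => ‖X k‖ ^ 2)]
      apply sum_congr rfl
      intro k hk
      rw [mem_range] at hk
      rw [XR_hi (by omega), norm_mul, tau_norm hb, one_mul]
      rfl
    have e4 : ∑ j ∈ range (m+1), ‖res z (bR b m) (XR b X m) (m + 2 + j)‖ ^ 2
        = ∑ k ∈ range (m+1), ‖res z b X k‖ ^ 2 := by
      rw [← sum_range_reflect (fun k => ‖res z b X k‖ ^ 2)]
      apply sum_congr rfl
      intro k hk
      rw [mem_range] at hk
      rw [resR_hi hX k (by omega), norm_mul, tau_norm hb, one_mul]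
      rfl
    have e5 : XR b X m (m + 2 + (m + 1) - 1) = tau b m m * X 0 := by
      have := XR_hi (b := b) (X := X) (m := m) (j := m) le_rfl
      rw [show m + 2 + (m + 1) - 1 = m + 2 + m by omega, this, Nat.sub_self]
    rw [e1, e2, e3, e4, e5, XR_mid, resR_mid, XR_lo (by omega), norm_mul, tau_norm hb, one_mul,
      max_self] at h1
    simp only [norm_zero, ne_eq, OfNat.ofNat_ne_zero, not_false_eq_true, zero_pow, add_zero] at h1
    have h2 : ‖X 0‖ ^ 2 ≤ max (‖X 0‖ ^ 2) (‖X (m + 1 - 1)‖ ^ 2) := le_max_left _ _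
    have h3 : ε/2 * ‖X 0‖ ^ 2 ≤ ε/2 * max (‖X 0‖ ^ 2) (‖X (m + 1 - 1)‖ ^ 2) := by gcongr
    linarith

lemma Bd_pow {z : ℂ} {δ ε : ℝ} (hε : 0 ≤ ε) (h : Bd z δ ε) (j : ℕ) :
    Bd z δ (ε / 2 ^ j) := by
  induction j with
  | zero => simpa using h
  | succ j ih =>
    have := Bd_half (by positivity) ih
    rwa [div_div, ← pow_succ] at this

/-- the boundary term can be removed -/
lemma FinGood_of_Bd {z : ℂ} {δ ε : ℝ} (hε : 0 ≤ ε) (h : Bd z δ ε) : FinGood z δ := by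
  intro n b X hb hX
  have h1 : ∀ j : ℕ, δ ^ 2 * ∑ k ∈ range n, ‖X k‖ ^ 2 ≤ ∑ k ∈ range n, ‖res z b X k‖ ^ 2
      + ε / 2 ^ j * max (‖X 0‖ ^ 2) (‖X (n-1)‖ ^ 2) := fun j => Bd_pow hε h j n b X hb hX
  have h2 : Filter.Tendsto (fun j : ℕ => ∑ k ∈ range n, ‖res z b X k‖ ^ 2
      + ε / 2 ^ j * max (‖X 0‖ ^ 2) (‖X (n-1)‖ ^ 2)) Filter.atTop
      (nhds (∑ k ∈ range n, ‖res z b X k‖ ^ 2 + 0 * max (‖X 0‖ ^ 2) (‖X (n-1)‖ ^ 2))) := by
    apply Filter.Tendsto.const_add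
    apply Filter.Tendsto.mul_const
    have h3 : Filter.Tendsto (fun j : ℕ => ε * (1/2 : ℝ) ^ j) Filter.atTop (nhds (ε * 0)) :=
      (tendsto_pow_atTop_nhds_zero_of_lt_one (by norm_num) (by norm_num)).const_mul ε
    rw [mul_zero] at h3
    refine h3.congr (fun j => ?_)
    rw [one_div, inv_pow, div_eq_mul_inv]
  have h3 := ge_of_tendsto' h2 h1
  simpa using h3

end Pool.Agent.W681.FZ
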