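import Pool.Agent.W681.FZ3

set_option autoImplicit false

open Finset Filter Topology

namespace Pool.Agent.W681.FZ

/-- bijectivity of the shifted operator on the sequence space -/
def Bij (z : ℂ) (b : ℤ → ℂ) : Prop :=
  ∀ y : ℤ → ℂ, Memℓp y 2 → ∃! x : ℤ → ℂ, Memℓp x 2 ∧
    ∀ n : ℤ, b (n - 1) * x (n - 1) + x (n + 1) - z * x n = y n

noncomputable abbrev L2 := lp (fun _ : ℤ => ℂ) 2

lemma mem2 (x : ℤ → ℂ) : Memℓp x 2 ↔ Summable (fun n => ‖x n‖ ^ 2) := by
  rw [memℓp_gen_iff (by norm_num)]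
  norm_num

lemma norm2 (f : L2) : ‖f‖ ^ 2 = ∑' n, ‖f n‖ ^ 2 := by
  have := lp.norm_rpow_eq_tsum (p := 2) (by norm_num) f
  norm_num at this
  exact this

lemma Bij.bound {z : ℂ} {b : ℤ → ℂ} (h : Bij z b) :
    ∃ C : ℝ, 0 < C ∧ ∀ f g : L2,
      (∀ n : ℤ, b (n-1) * f (n-1) + f (n+1) - z * f n = g n) → ‖f‖ ≤ C * ‖g‖ := by
  classical
  choose s hs hu using fun g : L2 => h g (lp.memℓp g)
  have huniq : ∀ (g f : L2), (∀ n : ℤ, b (n-1) * f (n-1) + f (n+1) - z * f n = g n) →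
      (f : ℤ → ℂ) = s g := fun g f hf => hu g f ⟨lp.memℓp f, hf⟩
  let S : L2 → L2 := fun g => ⟨s g, (hs g).1⟩
  have hS : ∀ g n, b (n-1) * (S g) (n-1) + (S g) (n+1) - z * (S g) n = g n := fun g => (hs g).2
  have hSu : ∀ (g f : L2), (∀ n : ℤ, b (n-1) * f (n-1) + f (n+1) - z * f n = g n) →
      f = S g := fun g f hf => lp.ext (huniq g f hf)
  let L : L2 →ₗ[ℂ] L2 :=
    { toFun := S
      map_add' := by
        intro g g'
        symm
        apply hSu
        intro n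
        have h1 := hS g n
        have h2 := hS g' n
        simp only [lp.coeFn_add, Pi.add_apply]
        rw [← h1, ← h2]
        ring
      map_smul' := by
        intro c g
        symm
        apply hSu
        intro n
        have h1 := hS g n
        simp only [RingHom.id_apply, lp.coeFn_smul, Pi.smul_apply, smul_eq_mul]
        rw [← h1]
        ring }
  have hcont : Continuous L := by
    apply LinearMap.continuous_of_seq_closed_graph
    intro u x y hx hy
    apply hSu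
    have hcoe : Continuous (fun f : L2 => (f : ℤ → ℂ)) :=
      (lp.uniformContinuous_coe (E := fun _ : ℤ => ℂ) (p := 2)).continuous
    have hx' : ∀ n, Tendsto (fun k => (u k : ℤ → ℂ) n) atTop (𝓝 (x n)) := fun n =>
      ((continuous_apply n).comp hcoe).continuousAt.tendsto.comp hx
    have hy' : ∀ n, Tendsto (fun k => (S (u k) : ℤ → ℂ) n) atTop (𝓝 (y n)) := fun n =>
      ((continuous_apply n).comp hcoe).continuousAt.tendsto.comp hy
    intro n
    have h1 : Tendsto (fun k => b (n-1) * (S (u k)) (n-1) + (S (u k)) (n+1) - z * (S (u k)) n)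
        atTop (𝓝 (b (n-1) * y (n-1) + y (n+1) - z * y n)) :=
      (((hy' (n-1)).const_mul _).add (hy' (n+1))).sub ((hy' n).const_mul _)
    have h2 : (fun k => b (n-1) * (S (u k)) (n-1) + (S (u k)) (n+1) - z * (S (u k)) n)
        = fun k => (u k : ℤ → ℂ) n := by
      funext k
      exact hS (u k) n
    rw [h2] at h1
    exact tendsto_nhds_unique h1 (hx' n)
  let Lc : L2 →L[ℂ] L2 := ⟨L, hcont⟩
  refine ⟨‖Lc‖ + 1, by positivity, fun f g hfg => ?_⟩
  have h1 : f = Lc g := hSu g f hfg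
  have h2 := Lc.le_opNorm g
  rw [h1]
  calc ‖Lc g‖ ≤ ‖Lc‖ * ‖g‖ := h2
    _ ≤ (‖Lc‖ + 1) * ‖g‖ := by gcongr; linarith

lemma Bij.bound' {z : ℂ} {b : ℤ → ℂ} (h : Bij z b) :
    ∃ C : ℝ, 0 < C ∧ ∀ x y : ℤ → ℂ, Summable (fun n => ‖x n‖ ^ 2) →
      Summable (fun n => ‖y n‖ ^ 2) →
      (∀ n : ℤ, b (n-1) * x (n-1) + x (n+1) - z * x n = y n) →
      ∑' n, ‖x n‖ ^ 2 ≤ C ^ 2 * ∑' n, ‖y n‖ ^ 2 := by
  obtain ⟨C, hC, hb⟩ := h.bound
  refine ⟨C, hC, fun x y hx hy hxy => ?_⟩
  let f : L2 := ⟨x, (mem2 x).2 hx⟩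
  let g : L2 := ⟨y, (mem2 y).2 hy⟩
  have h1 := hb f g hxy
  have h2 : ‖f‖ ^ 2 ≤ (C * ‖g‖) ^ 2 := by gcongr
  rw [mul_pow, norm2, norm2] at h2
  exact h2

/-- embedding of a finite vector at position a -/
noncomputable def Em (a : ℤ) (X : ℕ → ℂ) : ℤ → ℂ := fun j => if a ≤ j then X (j - a).toNat else 0

lemma Em_at (a : ℤ) (X : ℕ → ℂ) (i : ℕ) : Em a X (a + i) = X i := by
  have h1 : a ≤ a + (i:ℤ) := by omega
  have h2 : (a + (i:ℤ) - a).toNat = i := by omega
  simp only [Em, if_pos h1, h2]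

lemma Em_lt (a : ℤ) (X : ℕ → ℂ) (j : ℤ) (h : j < a) : Em a X j = 0 := by
  have h1 : ¬ (a ≤ j) := by omega
  simp only [Em, if_neg h1]

/-- positions of a window -/
def emb (a : ℤ) : ℕ ↪ ℤ where
  toFun := fun i => a - 1 + (i : ℤ)
  inj' := fun i j hij => by
    have : a - 1 + (i:ℤ) = a - 1 + (j:ℤ) := hij
    omega

lemma emb_apply (a : ℤ) (i : ℕ) : emb a i = a - 1 + (i : ℤ) := rfl

/-- finite sum version of the lower bound, for a vector on a window -/
lemma window_bound {z : ℂ} {c : ℤ → ℂ} {C : ℝ}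
    (h : ∀ x y : ℤ → ℂ, Summable (fun n => ‖x n‖ ^ 2) →
      Summable (fun n => ‖y n‖ ^ 2) →
      (∀ n : ℤ, c (n-1) * x (n-1) + x (n+1) - z * x n = y n) →
      ∑' n, ‖x n‖ ^ 2 ≤ C ^ 2 * ∑' n, ‖y n‖ ^ 2)
    (a : ℤ) (n : ℕ) (b X : ℕ → ℂ) (hb : PM b) (hc : ∀ i, i < n + 1 → c (a + i) = b i)
    (hX : ∀ i, n + 1 ≤ i → X i = 0) :
    ∑ k ∈ range (n+1), ‖X k‖ ^ 2 ≤ C ^ 2 * (∑ k ∈ range (n+1), ‖res z b X k‖ ^ 2
      + ‖X 0‖ ^ 2 + ‖X n‖ ^ 2) := by
  classical
  set x : ℤ → ℂ := Em a X with hx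
  set y : ℤ → ℂ := fun j => c (j-1) * x (j-1) + x (j+1) - z * x j with hy
  set e : ℕ ↪ ℤ := emb a with he
  have hx0 : ∀ j, j ∉ (range (n+3)).map e → x j = 0 := by
    intro j hj
    by_cases h1 : j < a
    · exact Em_lt a X j h1
    · obtain ⟨i, hi⟩ : ∃ i : ℕ, j = a + i := ⟨(j - a).toNat, by omega⟩
      rw [hi, hx, Em_at]
      apply hX
      by_contra h2
      apply hj
      rw [Finset.mem_map]
      refine ⟨i + 1, by rw [mem_range]; omega, ?_⟩
      rw [he, emb_apply]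
      push_cast
      omega
  have hyat : ∀ k, k < n + 1 → y (a + k) = res z b X k := by
    intro k hk
    match k, hk with
    | 0, hk =>
      have e1 := Em_at a X 0
      have e2 := Em_at a X 1
      simp only [Nat.cast_zero, add_zero, Nat.cast_one] at e1 e2
      simp only [hy, hx, Nat.cast_zero, add_zero]
      rw [Em_lt a X (a-1) (by omega), e1, e2, res]
      ring
    | (k+1), hk =>
      have e1 := Em_at a X k
      have e2 := Em_at a X (k+1)
      have e3 := Em_at a X (k+2)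
      simp only [hy, hx]
      rw [show a + ((k+1 : ℕ) : ℤ) - 1 = a + (k:ℤ) by push_cast; ring,
        show a + ((k+1 : ℕ) : ℤ) + 1 = a + ((k+2 : ℕ) : ℤ) by push_cast; ring, e1, e2, e3,
        hc k (by omega), res]
  have hyl : y (a - 1) = X 0 := by
    have e1 := Em_at a X 0
    simp only [Nat.cast_zero, add_zero] at e1
    simp only [hy, hx]
    rw [Em_lt a X (a-1-1) (by omega), Em_lt a X (a-1) (by omega), 
      show a - 1 + 1 = a by ring, e1]
    ring
  have hyr : y (a + ((n+1 : ℕ) : ℤ)) = b n * X n := by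
    have e1 := Em_at a X n
    have e2 := Em_at a X (n+1)
    have e3 := Em_at a X (n+2)
    simp only [hy, hx]
    rw [show a + ((n+1 : ℕ) : ℤ) - 1 = a + (n:ℤ) by push_cast; ring,
      show a + ((n+1 : ℕ) : ℤ) + 1 = a + ((n+2 : ℕ) : ℤ) by push_cast; ring, e1, e2, e3,
      hc n (by omega), hX (n+1) (by omega), hX (n+2) (by omega)]
    ring
  have hy0 : ∀ j, j ∉ (range (n+3)).map e → y j = 0 := by
    intro j hj
    by_cases h1 : j < a
    · have h2 : j < a - 1 := by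
        by_contra h3
        apply hj
        rw [Finset.mem_map]
        refine ⟨0, by rw [mem_range]; omega, ?_⟩
        rw [he, emb_apply]
        push_cast
        omega
      simp only [hy, hx]
      rw [Em_lt a X _ (by omega), Em_lt a X _ (by omega), Em_lt a X _ (by omega)]
      ring
    · obtain ⟨i, hi⟩ : ∃ i : ℕ, j = a + i := ⟨(j - a).toNat, by omega⟩
      have h2 : n + 2 ≤ i := by
        by_contra h3
        apply hj
        rw [Finset.mem_map]
        refine ⟨i + 1, by rw [mem_range]; omega, ?_⟩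
        rw [he, emb_apply]
        push_cast
        omega
      obtain ⟨k, rfl⟩ : ∃ k, i = k + 1 := ⟨i - 1, by omega⟩
      have e1 := Em_at a X k
      have e2 := Em_at a X (k+1)
      have e3 := Em_at a X (k+2)
      simp only [hy, hx, hi]
      rw [show a + ((k+1 : ℕ) : ℤ) - 1 = a + (k:ℤ) by push_cast; ring,
        show a + ((k+1 : ℕ) : ℤ) + 1 = a + ((k+2 : ℕ) : ℤ) by push_cast; ring, e1, e2, e3,
        hX k (by omega), hX (k+1) (by omega), hX (k+2) (by omega)]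
      ring
  have h0s : (0:ℝ) = ‖(0:ℂ)‖ ^ 2 := by simp
  have hxs : Summable (fun n => ‖x n‖ ^ 2) :=
    summable_of_ne_finset_zero (s := (range (n+3)).map e)
      (fun j hj => by rw [hx0 j hj]; simp)
  have hys : Summable (fun n => ‖y n‖ ^ 2) :=
    summable_of_ne_finset_zero (s := (range (n+3)).map e)
      (fun j hj => by rw [hy0 j hj]; simp)
  have hmain := h x y hxs hys (fun n => rfl)
  have hxt : ∑' j, ‖x j‖ ^ 2 = ∑ k ∈ range (n+1), ‖X k‖ ^ 2 := by
    rw [tsum_eq_sum (s := (range (n+3)).map e) (fun j hj => by rw [hx0 j hj]; simp), sum_map,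
      sum_range_succ', sum_range_succ]
    have h1 : x (e 0) = 0 := by
      rw [he, emb_apply, hx]
      exact Em_lt _ _ _ (by push_cast; omega)
    have h2 : x (e (n + 1 + 1)) = 0 := by
      rw [he, emb_apply, hx]
      rw [show a - 1 + ((n + 1 + 1 : ℕ) : ℤ) = a + ((n+1 : ℕ):ℤ) by push_cast; ring, Em_at]
      exact hX _ le_rfl
    rw [h1, h2]
    simp only [norm_zero, ne_eq, OfNat.ofNat_ne_zero, not_false_eq_true, zero_pow, add_zero]
    apply sum_congr rfl
    intro k hk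
    rw [he, emb_apply, hx]
    rw [show a - 1 + ((k + 1 : ℕ) : ℤ) = a + (k:ℤ) by push_cast; ring, Em_at]
  have hyt : ∑' j, ‖y j‖ ^ 2 = ∑ k ∈ range (n+1), ‖res z b X k‖ ^ 2
      + ‖X 0‖ ^ 2 + ‖X n‖ ^ 2 := by
    rw [tsum_eq_sum (s := (range (n+3)).map e) (fun j hj => by rw [hy0 j hj]; simp), sum_map,
      sum_range_succ', sum_range_succ]
    have h1 : y (e 0) = X 0 := by
      rw [he, emb_apply]
      rw [Nat.cast_zero, add_zero, hyl]
    have h2 : ‖y (e (n + 1 + 1))‖ = ‖X n‖ := by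
      rw [he, emb_apply]
      rw [show a - 1 + ((n + 1 + 1 : ℕ) : ℤ) = a + ((n+1 : ℕ):ℤ) by push_cast; ring, hyr,
        norm_mul, hb.norm, one_mul]
    have h3 : ∑ k ∈ range (n+1), ‖y (e (k + 1))‖ ^ 2 = ∑ k ∈ range (n+1), ‖res z b X k‖ ^ 2 := by
      apply sum_congr rfl
      intro k hk
      rw [he, emb_apply]
      rw [show a - 1 + ((k + 1 : ℕ) : ℤ) = a + (k:ℤ) by push_cast; ring,
        hyat k (mem_range.1 hk)]
    rw [h1, h2, h3]
    ring
  rw [hxt, hyt] at hmain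
  exact hmain

end Pool.Agent.W681.FZ
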