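import Pool.Agent.W681.FZ4

set_option autoImplicit false

open Finset Filter Topology

namespace Pool.Agent.W681.FZ

/-- starting positions -/
def pos (n : ℕ → ℕ) : ℕ → ℕ
  | 0 => 0
  | (k+1) => pos n k + n k + 1

lemma pos_mono (n : ℕ → ℕ) (k l : ℕ) (h : k < l) : pos n k + n k + 1 ≤ pos n l := by
  induction l with
  | zero => omega
  | succ l ih =>
    rcases Nat.lt_or_ge k l with h1 | h1
    · have := ih h1
      simp only [pos]
      omega
    · have : k = l := by omega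
      subst this
      simp [pos]

lemma glue (n : ℕ → ℕ) (b : ℕ → ℕ → ℂ) (hb : ∀ k, PM (b k)) :
    ∃ (c : ℤ → ℂ) (p : ℕ → ℤ), (∀ j, c j = 1 ∨ c j = -1) ∧
      ∀ k i, i < n k + 1 → c (p k + (i:ℤ)) = b k i := by
  classical
  have huniq : ∀ k i k' i', i < n k + 1 → i' < n k' + 1 →
      ((pos n k : ℤ) + i = pos n k' + i') → k = k' ∧ i = i' := by
    intro k i k' i' hi hi' h
    have h' : pos n k + i = pos n k' + i' := by omega
    rcases lt_trichotomy k k' with h1 | h1 | h1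
    · have := pos_mono n k k' h1
      omega
    · subst h1
      exact ⟨rfl, by omega⟩
    · have := pos_mono n k' k h1
      omega
  refine ⟨fun j => if h : ∃ q : ℕ × ℕ, q.2 < n q.1 + 1 ∧ j = (pos n q.1 : ℤ) + q.2 then
    b h.choose.1 h.choose.2 else 1, fun k => pos n k, ?_, ?_⟩
  · intro j
    dsimp only
    split_ifs with h
    · exact hb _ _
    · exact Or.inl rfl
  · intro k i hi
    have h : ∃ q : ℕ × ℕ, q.2 < n q.1 + 1 ∧ ((pos n k : ℤ) + i) = (pos n q.1 : ℤ) + q.2 :=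
      ⟨(k, i), hi, rfl⟩
    dsimp only
    rw [dif_pos h]
    obtain ⟨h1, h2⟩ := huniq k i h.choose.1 h.choose.2 hi h.choose_spec.1 h.choose_spec.2
    rw [← h1, ← h2]

lemma res_congr {z : ℂ} {b X Y : ℕ → ℂ} {n : ℕ} (h : ∀ k, k ≤ n → X k = Y k) (k : ℕ)
    (hk : k + 1 ≤ n) : res z b X k = res z b Y k := by
  match k, hk with
  | 0, hk => simp only [res]; rw [h 0 (by omega), h 1 (by omega)]
  | (k+1), hk => simp only [res]; rw [h k (by omega), h (k+1) (by omega), h (k+2) (by omega)]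

/-- bijectivity for all sign sequences gives the uniform finite bound -/
theorem FinGood_of_Bij {z : ℂ} (h : ∀ b : ℤ → ℂ, (∀ n, b n = 1 ∨ b n = -1) → Bij z b) :
    ∃ δ : ℝ, 0 < δ ∧ FinGood z δ := by
  classical
  suffices hs : ∃ δ : ℝ, 0 < δ ∧ Bd z δ 2 by
    obtain ⟨δ, hδ, hB⟩ := hs
    exact ⟨δ, hδ, FinGood_of_Bd (by norm_num) hB⟩
  by_contra hcon
  push Not at hcon
  have h1 : ∀ k : ℕ, ∃ (n : ℕ) (b X : ℕ → ℂ), PM b ∧ (∀ i, n + 1 ≤ i → X i = 0) ∧
      ∑ i ∈ range (n+1), ‖res z b X i‖ ^ 2 + ‖X 0‖ ^ 2 + ‖X n‖ ^ 2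
        < (1/((k:ℝ)+1)) ^ 2 * ∑ i ∈ range (n+1), ‖X i‖ ^ 2 := by
    intro k
    have h2 := hcon (1/((k:ℝ)+1)) (by positivity)
    unfold Bd at h2
    push Not at h2
    obtain ⟨n, b, X, hb, hX, hlt⟩ := h2
    cases n with
    | zero => simp [hX] at hlt
    | succ n =>
      set Y : ℕ → ℂ := fun i => if i < n + 1 then X i else 0 with hY
      have hYX : ∀ i, i ≤ n + 1 → Y i = X i := by
        intro i hi
        rcases Nat.lt_or_ge i (n+1) with h | h
        · simp only [hY, if_pos h]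
        · have : i = n + 1 := by omega
          rw [this, hX]
          simp [hY]
      refine ⟨n, b, Y, hb, fun i hi => ?_, ?_⟩
      · have : ¬ (i < n + 1) := by omega
        simp only [hY, if_neg this]
      · have e1 : ∑ i ∈ range (n+1), ‖res z b Y i‖ ^ 2 = ∑ i ∈ range (n+1), ‖res z b X i‖ ^ 2 := by
          apply sum_congr rfl
          intro i hi
          rw [mem_range] at hi
          rw [res_congr (n := n+1) hYX i (by omega)]
        have e2 : ∑ i ∈ range (n+1), ‖Y i‖ ^ 2 = ∑ i ∈ range (n+1), ‖X i‖ ^ 2 := by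
          apply sum_congr rfl
          intro i hi
          rw [mem_range] at hi
          rw [hYX i (by omega)]
        rw [e1, e2, hYX 0 (by omega), hYX n (by omega)]
        refine lt_of_le_of_lt ?_ hlt
        have m1 := le_max_left (‖X 0‖ ^ 2) (‖X (n + 1 - 1)‖ ^ 2)
        have m2 := le_max_right (‖X 0‖ ^ 2) (‖X (n + 1 - 1)‖ ^ 2)
        have m3 : X (n + 1 - 1) = X n := rfl
        rw [m3] at m1 m2 ⊢
        linarith
  choose n b X hb hX hlt using h1
  obtain ⟨c, p, hc, hcp⟩ := glue n b hb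
  obtain ⟨C, hC, hbd⟩ := (h c hc).bound'
  obtain ⟨k, hk⟩ := exists_nat_gt C
  have h2 := window_bound hbd (p k) (n k) (b k) (X k) (hb k) (fun i hi => hcp k i hi) (hX k)
  have h3 := hlt k
  set A := ∑ i ∈ range (n k+1), ‖X k i‖ ^ 2 with hA
  set B := ∑ i ∈ range (n k+1), ‖res z (b k) (X k) i‖ ^ 2 + ‖X k 0‖ ^ 2 + ‖X k (n k)‖ ^ 2 with hB
  have hA0 : 0 ≤ A := sum_nonneg (fun i _ => by positivity)
  have h4 : A ≤ C ^ 2 * ((1/((k:ℝ)+1)) ^ 2 * A) := h2.trans (by gcongr)
  have h5 : C ^ 2 * ((1/((k:ℝ)+1)) ^ 2) < 1 := by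
    rw [← mul_pow]
    apply pow_lt_one₀ (by positivity) _ (by norm_num)
    rw [mul_one_div, div_lt_one (by positivity)]
    linarith
  have h6 : A ≤ 0 := by
    by_contra h7
    push Not at h7
    have : C ^ 2 * ((1/((k:ℝ)+1)) ^ 2 * A) < 1 * A := by
      rw [← mul_assoc]
      exact mul_lt_mul_of_pos_right h5 h7
    linarith
  have h7 : A = 0 := le_antisymm h6 hA0
  rw [h7] at h3
  have h8 : 0 ≤ B := by
    have : 0 ≤ ∑ i ∈ range (n k+1), ‖res z (b k) (X k) i‖ ^ 2 :=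
      sum_nonneg (fun i _ => by positivity)
    positivity
  linarith

end Pool.Agent.W681.FZ
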