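import Pool.Agent.W681.FZ2
import Pool.Agent.W681.FZ5

set_option autoImplicit false

open Finset Filter Topology

namespace Pool.Agent.W681.FZ

/-- inhomogeneous solution with zero left boundary value -/
noncomputable def part (z : ℂ) (b Y : ℕ → ℂ) : ℕ → ℂ
  | 0 => 0
  | 1 => Y 0
  | (k+2) => z * part z b Y (k+1) - b k * part z b Y k + Y (k+1)

lemma phi_ne {z : ℂ} {δ : ℝ} (h : FinGood z δ) (hδ : 0 < δ) (b : ℕ → ℂ) (hb : PM b) (n : ℕ) :
    phi z b n ≠ 0 := by
  have := D_ne h hδ b hb 0 n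
  rwa [D_origin] at this

lemma fin_solve {z : ℂ} {δ : ℝ} (h : FinGood z δ) (hδ : 0 < δ) (b Y : ℕ → ℂ) (hb : PM b)
    (n : ℕ) :
    ∃ X : ℕ → ℂ, (∀ i, n ≤ i → X i = 0) ∧ ∀ k, k < n → res z b X k = Y k := by
  have hn := phi_ne h hδ b hb n
  set t : ℂ := - part z b Y n / phi z b n with ht
  set Z : ℕ → ℂ := fun k => part z b Y k + t * phi z b k with hZ
  have hZn : Z n = 0 := by
    simp only [hZ, ht]
    field_simp
    ring
  have hZr : ∀ k, res z b Z k = Y k := by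
    intro k
    match k with
    | 0 =>
      simp only [res, hZ, part, phi_one, phi_zero]
      ring
    | (k+1) =>
      simp only [res, hZ, part, phi_succ]
      ring
  refine ⟨fun k => if k < n then Z k else 0, fun i hi => ?_, fun k hk => ?_⟩
  · have : ¬ (i < n) := by omega
    simp only [if_neg this]
  · rw [← hZr k]
    apply res_congr (n := n) _ k (by omega)
    intro i hi
    rcases Nat.lt_or_ge i n with h1 | h1
    · simp only [if_pos h1]
    · have : i = n := by omega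
      subst this
      simp [hZn]

/-- uniqueness -/
lemma homog_zero {z : ℂ} {δ : ℝ} (h : FinGood z δ) (hδ : 0 < δ) (b : ℤ → ℂ)
    (hb : ∀ n, b n = 1 ∨ b n = -1) (x : ℤ → ℂ) (hx : Summable (fun n => ‖x n‖ ^ 2))
    (heq : ∀ n : ℤ, b (n-1) * x (n-1) + x (n+1) - z * x n = 0) : ∀ j, x j = 0 := by
  have key : ∀ (a : ℤ) (n : ℕ), δ ^ 2 * ∑ i ∈ range (n+2), ‖x (a + i)‖ ^ 2
      ≤ ‖x (a - 1)‖ ^ 2 + ‖x (a + ((n+2 : ℕ) : ℤ))‖ ^ 2 := by
    intro a n
    set X : ℕ → ℂ := fun i => if i < n + 2 then x (a + i) else 0 with hX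
    set c : ℕ → ℂ := fun i => b (a + i) with hc
    have hcPM : PM c := fun i => hb _
    have h1 := h (n+2) c X hcPM (by simp [hX])
    have hXi : ∀ i, i < n + 2 → X i = x (a + i) := fun i hi => by simp only [hX, if_pos hi]
    have hXe : X (n+2) = 0 := by simp [hX]
    have h2 : ∑ i ∈ range (n+2), ‖X i‖ ^ 2 = ∑ i ∈ range (n+2), ‖x (a + i)‖ ^ 2 := by
      apply sum_congr rfl
      intro i hi
      rw [hXi i (mem_range.1 hi)]
    have h3 : ‖res z c X 0‖ = ‖x (a - 1)‖ := by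
      have e := heq a
      have e' : x (a + 1) - z * x a = - (b (a-1) * x (a-1)) := by
        linear_combination e
      simp only [res]
      rw [hXi 0 (by omega), hXi 1 (by omega)]
      push_cast
      rw [add_zero, e', norm_neg, norm_mul]
      rcases hb (a-1) with h | h <;> simp [h]
    have h4 : ‖res z c X (n+1)‖ = ‖x (a + ((n+2 : ℕ) : ℤ))‖ := by
      have e := heq (a + ((n+1 : ℕ) : ℤ))
      rw [show a + ((n+1 : ℕ) : ℤ) - 1 = a + (n:ℤ) by push_cast; ring,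
        show a + ((n+1 : ℕ) : ℤ) + 1 = a + ((n+2 : ℕ) : ℤ) by push_cast; ring] at e
      have e' : b (a + (n:ℤ)) * x (a + (n:ℤ)) + 0 - z * x (a + ((n+1 : ℕ) : ℤ))
          = - x (a + ((n+2 : ℕ) : ℤ)) := by
        linear_combination e
      simp only [res]
      rw [hXi n (by omega), hXi (n+1) (by omega), hXe, e', norm_neg]
    have h5 : ∀ i, i < n → res z c X (i+1) = 0 := by
      intro i hi
      have e := heq (a + ((i+1 : ℕ) : ℤ))
      rw [show a + ((i+1 : ℕ) : ℤ) - 1 = a + (i:ℤ) by push_cast; ring,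
        show a + ((i+1 : ℕ) : ℤ) + 1 = a + ((i+2 : ℕ) : ℤ) by push_cast; ring] at e
      simp only [res]
      rw [hXi i (by omega), hXi (i+1) (by omega), hXi (i+2) (by omega)]
      exact e
    have h6 : ∑ i ∈ range (n+2), ‖res z c X i‖ ^ 2
        = ‖x (a - 1)‖ ^ 2 + ‖x (a + ((n+2 : ℕ) : ℤ))‖ ^ 2 := by
      rw [sum_range_succ, sum_range_succ', h3, h4, sum_eq_zero]
      · ring
      · intro i hi
        rw [h5 i (mem_range.1 hi)]
        simp
    rw [h2, h6] at h1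
    exact h1
  have hlim := hx.tendsto_cofinite_zero
  intro j
  have hl : Tendsto (fun N : ℕ => ‖x (j - (N:ℤ) - 1)‖ ^ 2) atTop (𝓝 0) := by
    have hinj : Function.Injective (fun N : ℕ => j - (N:ℤ) - 1) := by
      intro u v huv
      have : j - (u:ℤ) - 1 = j - (v:ℤ) - 1 := huv
      omega
    have := hlim.comp hinj.tendsto_cofinite
    rwa [Nat.cofinite_eq_atTop] at this
  have hr : Tendsto (fun N : ℕ => ‖x (j - (N:ℤ) + ((2 * N+2 : ℕ) : ℤ))‖ ^ 2) atTop (𝓝 0) := by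
    have hinj : Function.Injective (fun N : ℕ => j - (N:ℤ) + ((2 * N+2 : ℕ) : ℤ)) := by
      intro u v huv
      have : j - (u:ℤ) + ((2 * u+2 : ℕ) : ℤ) = j - (v:ℤ) + ((2 * v+2 : ℕ) : ℤ) := huv
      push_cast at this
      omega
    have := hlim.comp hinj.tendsto_cofinite
    rwa [Nat.cofinite_eq_atTop] at this
  have hk : ∀ N : ℕ, δ ^ 2 * ‖x j‖ ^ 2 ≤ ‖x (j - (N:ℤ) - 1)‖ ^ 2
      + ‖x (j - (N:ℤ) + ((2 * N+2 : ℕ) : ℤ))‖ ^ 2 := by
    intro N
    refine le_trans ?_ (key (j - N) (2 * N))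
    gcongr
    have := single_le_sum (f := fun i : ℕ => ‖x (j - (N:ℤ) + i)‖ ^ 2) (s := range (2*N+2))
      (fun i _ => by positivity) (mem_range.2 (by omega : N < 2*N+2))
    simpa using this
  have h7 := ge_of_tendsto' (hl.add hr) hk
  rw [add_zero] at h7
  have h8 : ‖x j‖ ^ 2 = 0 := by
    by_contra h9
    have : 0 < ‖x j‖ ^ 2 := lt_of_le_of_ne (by positivity) (Ne.symm h9)
    have : 0 < δ ^ 2 * ‖x j‖ ^ 2 := by positivity
    linarith
  simpa using h8

lemma sum_window_le (y : ℤ → ℂ) (hy : Summable (fun n => ‖y n‖ ^ 2)) (a : ℤ) (n : ℕ) :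
    ∑ i ∈ range n, ‖y (a + i)‖ ^ 2 ≤ ∑' j, ‖y j‖ ^ 2 := by
  have h1 := hy.sum_le_tsum ((range n).map (emb (a+1))) (fun i _ => by positivity)
  rw [sum_map] at h1
  refine le_trans (le_of_eq ?_) h1
  apply sum_congr rfl
  intro i _
  rw [emb_apply, show a + 1 - 1 + (i:ℤ) = a + i by ring]

lemma Em_sum_le (X : ℕ → ℂ) (a : ℤ) (n : ℕ) (hX : ∀ i, n ≤ i → X i = 0) (s : Finset ℤ) :
    ∑ j ∈ s, ‖Em a X j‖ ^ 2 ≤ ∑ i ∈ range n, ‖X i‖ ^ 2 := by
  have h0 : ∀ j, j ∉ (range n).map (emb (a+1)) → Em a X j = 0 := by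
    intro j hj
    by_cases h1 : j < a
    · exact Em_lt a X j h1
    · obtain ⟨i, hi⟩ : ∃ i : ℕ, j = a + i := ⟨(j - a).toNat, by omega⟩
      rw [hi, Em_at]
      apply hX
      by_contra h2
      apply hj
      rw [Finset.mem_map]
      refine ⟨i, by rw [mem_range]; omega, ?_⟩
      rw [emb_apply]
      omega
  have hs : Summable (fun j => ‖Em a X j‖ ^ 2) :=
    summable_of_ne_finset_zero (s := (range n).map (emb (a+1)))
      (fun j hj => by rw [h0 j hj]; simp)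
  have h1 := hs.sum_le_tsum s (fun i _ => by positivity)
  refine h1.trans (le_of_eq ?_)
  rw [tsum_eq_sum (s := (range n).map (emb (a+1))) (fun j hj => by rw [h0 j hj]; simp), sum_map]
  apply sum_congr rfl
  intro i _
  rw [emb_apply, show a + 1 - 1 + (i:ℤ) = a + i by ring, Em_at]

/-- the uniform finite bound gives bijectivity -/
theorem Bij_of_FinGood {z : ℂ} {δ : ℝ} (h : FinGood z δ) (hδ : 0 < δ) (b : ℤ → ℂ)
    (hb : ∀ n, b n = 1 ∨ b n = -1) : Bij z b := by
  classical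
  intro y hy
  rw [mem2] at hy
  -- finite solutions
  have hfin : ∀ N : ℕ, ∃ x : ℤ → ℂ, (∀ s : Finset ℤ, ∑ j ∈ s, ‖x j‖ ^ 2
        ≤ (1/δ) ^ 2 * ∑' j, ‖y j‖ ^ 2) ∧
      ∀ j : ℤ, - (N:ℤ) < j → j < N → b (j-1) * x (j-1) + x (j+1) - z * x j = y j := by
    intro N
    set a : ℤ := - (N:ℤ) with ha
    obtain ⟨X, hX0, hXr⟩ := fin_solve h hδ (fun i => b (a + i)) (fun i => y (a + i))
      (fun i => hb _) (2 * N + 1)
    refine ⟨Em a X, fun s => ?_, fun j hj1 hj2 => ?_⟩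
    · refine (Em_sum_le X a _ hX0 s).trans ?_
      have h1 := h (2 * N + 1) (fun i => b (a + i)) X (fun i => hb _) (hX0 _ le_rfl)
      have h2 : ∑ k ∈ range (2 * N + 1), ‖res z (fun i : ℕ => b (a + i)) X k‖ ^ 2
          = ∑ k ∈ range (2 * N + 1), ‖y (a + k)‖ ^ 2 := by
        apply sum_congr rfl
        intro k hk
        rw [hXr k (mem_range.1 hk)]
      rw [h2] at h1
      have h3 := sum_window_le y hy a (2 * N + 1)
      calc ∑ i ∈ range (2 * N + 1), ‖X i‖ ^ 2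
          = (1/δ) ^ 2 * (δ ^ 2 * ∑ i ∈ range (2 * N + 1), ‖X i‖ ^ 2) := by field_simp
        _ ≤ (1/δ) ^ 2 * ∑' j, ‖y j‖ ^ 2 := by
            gcongr
            exact h1.trans h3
    · obtain ⟨i, hi⟩ : ∃ i : ℕ, j = a + ((i+1 : ℕ) : ℤ) := ⟨(j - a - 1).toNat, by
        rw [Nat.cast_add, Int.toNat_of_nonneg (by omega)]; push_cast; ring⟩
      have hi2 : i + 1 < 2 * N + 1 := by
        have : a + ((i+1 : ℕ) : ℤ) < N := hi ▸ hj2
        omega
      have h1 := hXr (i+1) hi2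
      simp only [res] at h1
      rw [hi, show a + ((i+1 : ℕ) : ℤ) - 1 = a + (i:ℤ) by push_cast; ring,
        show a + ((i+1 : ℕ) : ℤ) + 1 = a + ((i+2 : ℕ) : ℤ) by push_cast; ring, Em_at, Em_at,
        Em_at]
      exact h1
  choose u hu1 hu2 using hfin
  set M : ℝ := (1/δ) ^ 2 * ∑' j, ‖y j‖ ^ 2 with hM
  have hM0 : 0 ≤ M := by positivity
  have hub : ∀ N j, ‖u N j‖ ≤ Real.sqrt M := by
    intro N j
    apply Real.le_sqrt_of_sq_le
    have := hu1 N {j}
    simpa using this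
  let U : Ultrafilter ℕ := Ultrafilter.of atTop
  have hU : (U : Filter ℕ) ≤ atTop := Ultrafilter.of_le atTop
  have hlim : ∀ j, ∃ l : ℂ, Tendsto (fun N => u N j) U (𝓝 l) := by
    intro j
    obtain ⟨l, _, hl⟩ := (isCompact_closedBall (0:ℂ) (Real.sqrt M)).ultrafilter_le_nhds
      (U.map (fun N => u N j)) (by
        rw [Ultrafilter.coe_map, le_principal_iff, Filter.mem_map]
        apply Filter.univ_mem'
        intro N
        simp [hub N j])
    exact ⟨l, hl⟩
  choose x hx using hlim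
  have hxm : Memℓp x 2 := by
    rw [mem2]
    apply summable_of_sum_le (c := M) (fun j => by positivity)
    intro s
    have h1 : Tendsto (fun N => ∑ j ∈ s, ‖u N j‖ ^ 2) U (𝓝 (∑ j ∈ s, ‖x j‖ ^ 2)) :=
      tendsto_finsetSum _ (fun j _ => ((hx j).norm.pow 2))
    exact le_of_tendsto' h1 (fun N => hu1 N s)
  have hxe : ∀ j : ℤ, b (j-1) * x (j-1) + x (j+1) - z * x j = y j := by
    intro j
    have h1 : Tendsto (fun N => b (j-1) * u N (j-1) + u N (j+1) - z * u N j) U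
        (𝓝 (b (j-1) * x (j-1) + x (j+1) - z * x j)) :=
      (((hx (j-1)).const_mul _).add (hx (j+1))).sub ((hx j).const_mul _)
    have h2 : ∀ᶠ N in (U : Filter ℕ), b (j-1) * u N (j-1) + u N (j+1) - z * u N j = y j := by
      apply hU
      filter_upwards [eventually_gt_atTop j.natAbs] with N hN
      apply hu2 N j <;> omega
    have h3 : Tendsto (fun _ : ℕ => y j) U (𝓝 (b (j-1) * x (j-1) + x (j+1) - z * x j)) :=
      h1.congr' h2
    exact (tendsto_nhds_unique h3 tendsto_const_nhds)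
  refine ⟨x, ⟨hxm, hxe⟩, ?_⟩
  rintro x' ⟨hx'1, hx'2⟩
  have hd : Summable (fun n => ‖(x' - x) n‖ ^ 2) := (mem2 _).1 (hx'1.sub hxm)
  have h0 := homog_zero h hδ b hb (x' - x) hd (fun n => by
    have e1 := hx'2 n
    have e2 := hxe n
    simp only [Pi.sub_apply]
    linear_combination e1 - e2)
  funext j
  have := h0 j
  simp only [Pi.sub_apply] at this
  exact sub_eq_zero.1 this

end Pool.Agent.W681.FZ
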