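import Pool.Agent.W681.FZ2

set_option autoImplicit false

open Finset Filter Topology

namespace Pool.Agent.W681.FZ

/-- auxiliary signs of the bounded solution -/
def aa : ℕ → ℤ
  | 0 => 1
  | (n+1) => -(if n % 2 = 0 then - aa (n/2) else aa ((n+1)/2)) * aa n
decreasing_by all_goals omega

def bb (n : ℕ) : ℤ := if n % 2 = 0 then - aa (n/2) else aa ((n+1)/2)

lemma aa_zero : aa 0 = 1 := by rw [aa]

lemma aa_succ (n : ℕ) : aa (n+1) = - bb n * aa n := by
  rw [aa]
  rfl

lemma aa_pm (n : ℕ) : aa n = 1 ∨ aa n = -1 := by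
  induction n using Nat.strong_induction_on with
  | _ n ih =>
    match n, ih with
    | 0, _ => left; exact aa_zero
    | (n+1), ih =>
      have h1 := ih n (by omega)
      have h2 : bb n = 1 ∨ bb n = -1 := by
        unfold bb
        split_ifs
        · rcases ih (n/2) (by omega) with h | h <;> simp [h]
        · exact ih ((n+1)/2) (by omega)
      rw [aa_succ]
      rcases h1 with h | h <;> rcases h2 with h' | h' <;> simp [h, h']

lemma bb_pm (n : ℕ) : bb n = 1 ∨ bb n = -1 := by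
  unfold bb
  split_ifs
  · rcases aa_pm (n/2) with h | h <;> simp [h]
  · exact aa_pm _

lemma bb_even (j : ℕ) : bb (2*j) = - aa j := by
  have h1 : 2 * j % 2 = 0 := by omega
  have h2 : 2 * j / 2 = j := by omega
  rw [bb, if_pos h1, h2]

lemma bb_odd (j : ℕ) : bb (2*j+1) = aa (j+1) := by
  have h1 : ¬ ((2 * j + 1) % 2 = 0) := by omega
  have h2 : (2 * j + 1 + 1) / 2 = j + 1 := by omega
  rw [bb, if_neg h1, h2]

/-- the bounded solution -/
noncomputable def UU (μ : ℂ) : ℕ → ℂ
  | 0 => 0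
  | 1 => 1
  | (n+2) => μ * UU μ (n+1) - (bb n : ℂ) * UU μ n

lemma UU_succ (μ : ℂ) (n : ℕ) : UU μ (n+2) = μ * UU μ (n+1) - (bb n : ℂ) * UU μ n := by
  simp [UU]

lemma UU_double (μ : ℂ) (j : ℕ) :
    UU μ (2*j) = μ * UU (μ^2) j ∧
    UU μ (2*j+1) = UU (μ^2) (j+1) - (aa j : ℂ) * UU (μ^2) j := by
  induction j with
  | zero => simp [UU]
  | succ j ih =>
    obtain ⟨h0, h1⟩ := ih
    have e2 : UU μ (2*(j+1)) = μ * UU (μ^2) (j+1) := by
      rw [show 2*(j+1) = 2*j+2 by ring, UU_succ, h0, h1, bb_even]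
      push_cast
      ring
    refine ⟨e2, ?_⟩
    rw [show 2*(j+1)+1 = (2*j+1)+2 by ring, UU_succ, show 2*j+1+1 = 2*(j+1) by ring, e2, h1,
      bb_odd, UU_succ]
    have h3 : (aa (j+1) : ℂ) = - bb j * aa j := by
      rw [aa_succ]; push_cast; ring
    have h4 : (aa j : ℂ) * aa j = 1 := by
      rcases aa_pm j with h | h <;> simp [h]
    rw [h3]
    linear_combination (bb j : ℂ) * UU (μ^2) j * (- h4)

lemma UU_bound (k : ℕ) : ∀ μ : ℂ, ‖μ‖ < 1 →
    ‖UU μ k‖ * (1 - ‖μ‖^2) ≤ if k % 2 = 0 then ‖μ‖ else 1 := by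
  induction k using Nat.strong_induction_on with
  | _ k ih =>
    intro μ hμ
    set t := ‖μ‖ with ht
    have ht0 : 0 ≤ t := norm_nonneg _
    have ht2 : t ^ 2 < 1 := by nlinarith
    have hμ2 : ‖μ^2‖ = t ^ 2 := by rw [norm_pow]
    have ht4 : 0 < 1 - (t^2)^2 := by nlinarith
    rcases Nat.even_or_odd' k with ⟨j, hj | hj⟩
    · rcases Nat.eq_zero_or_pos j with h0 | h0
      · subst h0
        simp at hj
        subst hj
        simp [UU, ht0]
      · have h1 := ih j (by omega) (μ^2) (by rw [hμ2]; exact ht2)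
        rw [hμ2] at h1
        have h2 : ‖UU (μ^2) j‖ * (1 - (t^2)^2) ≤ 1 := by
          refine h1.trans ?_
          split_ifs
          · linarith
          · exact le_rfl
        have hk : k % 2 = 0 := by omega
        rw [if_pos hk, hj, (UU_double μ j).1, norm_mul, ← ht]
        have h3 : ‖UU (μ^2) j‖ * (1 - t^2) ≤ 1 := by
          refine le_trans ?_ h2
          have : 1 - t^2 ≤ 1 - (t^2)^2 := by nlinarith [sq_nonneg t]
          gcongr
        calc t * ‖UU (μ^2) j‖ * (1 - t^2) = t * (‖UU (μ^2) j‖ * (1 - t^2)) := by ring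
          _ ≤ t * 1 := by gcongr
          _ = t := mul_one t
    · rcases Nat.eq_zero_or_pos j with h0 | h0
      · subst h0
        simp at hj
        subst hj
        simp [UU]
        positivity
      · have hk : ¬ (k % 2 = 0) := by omega
        rw [if_neg hk, hj, (UU_double μ j).2]
        have h1 := ih j (by omega) (μ^2) (by rw [hμ2]; exact ht2)
        have h2 := ih (j+1) (by omega) (μ^2) (by rw [hμ2]; exact ht2)
        rw [hμ2] at h1 h2
        have h3 : ‖UU (μ^2) (j+1) - (aa j : ℂ) * UU (μ^2) j‖ ≤ ‖UU (μ^2) (j+1)‖ + ‖UU (μ^2) j‖ := by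
          refine (norm_sub_le _ _).trans ?_
          rw [norm_mul]
          rcases aa_pm j with h | h <;> simp [h]
        have h4 : (‖UU (μ^2) (j+1)‖ + ‖UU (μ^2) j‖) * (1 - (t^2)^2) ≤ t^2 + 1 := by
          rcases Nat.mod_two_eq_zero_or_one j with h | h
          · have h' : ¬ ((j+1) % 2 = 0) := by omega
            rw [if_pos h] at h1
            rw [if_neg h'] at h2
            linarith
          · have h' : (j+1) % 2 = 0 := by omega
            have h'' : ¬ (j % 2 = 0) := by omega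
            rw [if_neg h''] at h1
            rw [if_pos h'] at h2
            linarith
        have h5 : (‖UU (μ^2) (j+1)‖ + ‖UU (μ^2) j‖) * (1 - t^2) ≤ 1 := by
          have h6 : (0:ℝ) < 1 + t^2 := by positivity
          have h7 : (‖UU (μ^2) (j+1)‖ + ‖UU (μ^2) j‖) * (1 - t^2) * (1 + t^2) ≤ 1 * (1 + t^2) := by
            calc (‖UU (μ^2) (j+1)‖ + ‖UU (μ^2) j‖) * (1 - t^2) * (1 + t^2)
                = (‖UU (μ^2) (j+1)‖ + ‖UU (μ^2) j‖) * (1 - (t^2)^2) := by ring
              _ ≤ t^2 + 1 := h4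
              _ = 1 * (1 + t^2) := by ring
          exact le_of_mul_le_mul_right h7 h6
        refine le_trans ?_ h5
        have : 0 ≤ 1 - t^2 := by linarith
        gcongr

/-- Wronskian transfer along a block -/
lemma wron {z : ℂ} {B x : ℕ → ℂ} (hx : ∀ k, x (k+2) = z * x (k+1) - B k * x k) (p N : ℕ) :
    D z B (p+1) (N+1) * x (p+1+N) - D z B (p+1) N * x (p+2+N)
      = B p * (∏ i ∈ range N, B (p+1+i)) * x p := by
  induction N with
  | zero => simp [hx]
  | succ N ih =>
    have e := hx (p+1+N)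
    rw [show p + 1 + N + 2 = p + 2 + (N + 1) by ring, show p + 1 + N + 1 = p + 2 + N by ring] at e
    rw [prod_range_succ, D_succ, show p + 1 + (N + 1) = p + 2 + N by ring, e]
    linear_combination B (p+1+N) * ih

lemma blocks_rev (z : ℂ) (B : ℕ → ℂ) (p q N : ℕ)
    (h : ∀ i, i < N → B (q+1+i) = B (p+1+(N-1-i))) :
    D z B (q+1) (N+1) = D z B (p+1) (N+1) ∧ D z B (q+2) N = D z B (p+1) N := by
  constructor
  · cases N with
    | zero => simp
    | succ N =>
      have h1 := phi_rev z (sh (p+1) B) N (N+2) le_rfl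
      rw [Nat.sub_self, D_origin] at h1
      show phi z (sh (q+1) B) (N+2) = phi z (sh (p+1) B) (N+2)
      rw [← h1]
      apply phi_congr
      intro i hi
      simp only [sh]
      rw [h i (by omega), show N + 1 - 1 - i = N - i by omega]
  · match N, h with
    | 0, _ => simp
    | 1, _ => simp
    | (N+2), h =>
      have h1 := phi_rev z (sh (p+1) B) N (N+2) le_rfl
      rw [Nat.sub_self, D_origin] at h1
      show phi z (sh (q+2) B) (N+2) = phi z (sh (p+1) B) (N+2)
      rw [← h1]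
      apply phi_congr
      intro i hi
      simp only [sh]
      rw [show q + 2 + i = q + 1 + (i+1) by ring, h (i+1) (by omega),
        show N + 2 - 1 - (i + 1) = N - i by omega]

lemma decim {z : ℂ} {B x : ℕ → ℂ} (hx : ∀ k, x (k+2) = z * x (k+1) - B k * x k) (p N : ℕ)
    (hrev : ∀ i, i < N → B (p+(N+2)+1+i) = B (p+1+(N-1-i)))
    (hs : B (p+1+N) + B (p+(N+2)) = 0) :
    x (p+(N+2)+(N+2)) = z * D z B (p+1) (N+1) * x (p+(N+2))
      - B (p+1+N) * B p * (∏ i ∈ range N, B (p+1+i)) * x p := by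
  obtain ⟨h1, h2⟩ := blocks_rev z B p (p+(N+2)) N hrev
  have h3 := sol_formula z B x hx (p+(N+2)) N
  have h4 := wron hx p N
  have h5 := hx (p+1+N)
  rw [show p + 1 + N + 2 = p + (N+2) + 1 by ring, show p + 1 + N + 1 = p + (N+2) by ring] at h5
  rw [show p + 2 + N = p + (N+2) by ring] at h4
  rw [show p + (N+2) + 2 + N = p + (N+2) + (N+2) by ring, h1, h2, h5] at h3
  rw [h3]
  linear_combination (-B (p+1+N)) * h4 - D z B (p+1) N * x (p+(N+2)) * hs

end Pool.Agent.W681.FZ
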