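import Pool.Agent.W988.RA.Defs

/-!
Project RA: continuity facts (`S_RVP`) and compactness (`S_KC`).
-/

namespace Pool.Agent.W681.RA_KC

open Pool.Agent.W988.RA

theorem dt_add {n : ℕ} (ε : Fin n → Bool) (x y : Fin n → ℝ) : dt ε (x + y) = dt ε x + dt ε y := by
  unfold dt
  rw [← Finset.sum_add_distrib]
  exact Finset.sum_congr rfl (fun k _ => by rw [Pi.add_apply]; ring)

theorem dt_smul {n : ℕ} (ε : Fin n → Bool) (c : ℝ) (x : Fin n → ℝ) :
    dt ε (fun k => c * x k) = c * dt ε x := by
  unfold dt
  rw [Finset.mul_sum]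
  exact Finset.sum_congr rfl (fun k _ => by ring)

theorem mulV_add {n : ℕ} (M M' : MM n) (x : Fin n → ℝ) :
    mulV (M + M') x = mulV M x + mulV M' x := by
  funext k
  show ∑ j, (M + M') k j * x j = (∑ j, M k j * x j) + ∑ j, M' k j * x j
  rw [← Finset.sum_add_distrib]
  exact Finset.sum_congr rfl (fun j _ => by rw [Pi.add_apply, Pi.add_apply]; ring)

theorem mulV_smul {n : ℕ} (M : MM n) (c : ℝ) (x : Fin n → ℝ) :
    mulV (c • M) x = fun k => c * mulV M x k := by
  funext k
  unfold mulV
  rw [Finset.mul_sum]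
  exact Finset.sum_congr rfl (fun j _ => by rw [Pi.smul_apply, Pi.smul_apply, smul_eq_mul]; ring)

theorem av_mono {n : ℕ} {f g : (Fin n → Bool) → ℝ} (h : ∀ ε, f ε ≤ g ε) : av f ≤ av g := by
  unfold av
  exact div_le_div_of_nonneg_right (Finset.sum_le_sum (fun ε _ => h ε)) (by positivity)

theorem av_add {n : ℕ} (f g : (Fin n → Bool) → ℝ) : av (fun ε => f ε + g ε) = av f + av g := by
  unfold av
  rw [Finset.sum_add_distrib, add_div]

theorem av_mul {n : ℕ} (c : ℝ) (f : (Fin n → Bool) → ℝ) : av (fun ε => c * f ε) = c * av f := by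
  unfold av
  rw [← Finset.mul_sum, mul_div_assoc]

theorem av_congr {n : ℕ} {f g : (Fin n → Bool) → ℝ} (h : ∀ ε, f ε = g ε) : av f = av g := by
  rw [funext h]

theorem le_sup {ι : Type} [Finite ι] (f : ι → ℝ) (i : ι) : f i ≤ ⨆ i, f i :=
  le_ciSup (Set.finite_range f).bddAbove i

theorem cont_sup {ι X : Type} [Fintype ι] [TopologicalSpace X] (f : ι → X → ℝ)
    (h : ∀ i, Continuous (f i)) : Continuous (fun x => ⨆ i, f i x) := by
  rcases isEmpty_or_nonempty ι with hι | hι
  · have h1 : (fun x => ⨆ i, f i x) = fun _ => (0 : ℝ) := by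
      funext x
      exact Real.iSup_of_isEmpty _
    rw [h1]
    exact continuous_const
  · have h1 : (fun x => ⨆ i, f i x) =
        fun x => Finset.univ.sup' Finset.univ_nonempty (fun i => f i x) := by
      funext x
      rw [Finset.sup'_univ_eq_ciSup]
    rw [h1]
    exact Continuous.finset_sup'_apply _ (fun i _ => h i)

theorem cont_av {n : ℕ} {X : Type} [TopologicalSpace X] (f : (Fin n → Bool) → X → ℝ)
    (h : ∀ i, Continuous (f i)) : Continuous (fun x => av (fun ε => f ε x)) := by
  unfold av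
  exact (continuous_finsetSum _ (fun ε _ => h ε)).div_const _

theorem cont_nrm (n m : ℕ) : Continuous (nrm : AR n m → ℝ) := by
  unfold nrm
  refine cont_av (fun ε (A : AR n m) => ⨆ i : Fin m, |dt ε fun k => A (k, i)|) (fun ε => ?_)
  refine cont_sup (fun (i : Fin m) (A : AR n m) => |dt ε fun k => A (k, i)|) (fun i => ?_)
  unfold dt
  fun_prop

theorem cont_RV (n m : ℕ) : Continuous (fun q : AR n m × MM n => RV q.1 q.2) := by
  unfold RV
  refine cont_av (fun ε (q : AR n m × MM n) => ⨆ i : Fin n ⊕ Fin m,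
    |dt ε (mulV q.2 (wv q.1 i))|) (fun ε => ?_)
  refine cont_sup (fun (i : Fin n ⊕ Fin m) (q : AR n m × MM n) => |dt ε (mulV q.2 (wv q.1 i))|)
    (fun i => ?_)
  have hw : ∀ j, Continuous (fun q : AR n m × MM n => wv q.1 i j) := by
    intro j
    rcases i with i | i
    · exact continuous_const
    · show Continuous (fun q : AR n m × MM n => q.1 (j, i))
      fun_prop
  unfold dt mulV
  refine Continuous.abs ?_
  refine continuous_finsetSum _ (fun k _ => ?_)
  refine continuous_const.mul ?_
  refine continuous_finsetSum _ (fun j _ => ?_)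
  refine Continuous.mul ?_ (hw j)
  fun_prop

theorem sg_mul {n : ℕ} (ε σ : Fin n → Bool) (k : Fin n) :
    sg (fun k => ε k == σ k) k = sg ε k * sg σ k := by
  unfold sg
  show (if (ε k == σ k) = true then (1 : ℝ) else -1) = _
  cases ε k <;> cases σ k <;> simp

theorem rvp : S_RVP := by
  refine ⟨cont_RV, cont_nrm, ?_, ?_, ?_, ?_, ?_, ?_, ?_⟩
  · intro n m V M M'
    unfold RV
    rw [← av_add]
    refine av_mono (fun ε => ?_)
    refine Real.iSup_le (fun i => ?_) (add_nonneg (Real.iSup_nonneg (fun i => abs_nonneg _))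
      (Real.iSup_nonneg (fun i => abs_nonneg _)))
    rw [mulV_add, dt_add]
    refine (abs_add_le _ _).trans (add_le_add ?_ ?_)
    · exact le_sup (fun i => |dt ε (mulV M (wv V i))|) i
    · exact le_sup (fun i => |dt ε (mulV M' (wv V i))|) i
  · intro n m V M c
    unfold RV
    rw [← av_mul]
    refine av_congr (fun ε => ?_)
    rw [Real.mul_iSup_of_nonneg (abs_nonneg c)]
    refine iSup_congr (fun i => ?_)
    rw [mulV_smul, dt_smul, abs_mul]
  · intro n m V M σ
    have hinv : Function.Involutive (fun (ε : Fin n → Bool) (k : Fin n) => ε k == σ k) := by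
      intro ε
      funext k
      show ((ε k == σ k) == σ k) = ε k
      cases ε k <;> cases σ k <;> rfl
    have h1 : ∀ (ε : Fin n → Bool) (x : Fin n → ℝ),
        dt ε (mulV (fun k j => sg σ k * M k j) x) = dt (fun k => ε k == σ k) (mulV M x) := by
      intro ε x
      unfold dt mulV
      refine Finset.sum_congr rfl (fun k _ => ?_)
      rw [sg_mul, mul_assoc, Finset.mul_sum, Finset.mul_sum, Finset.mul_sum]
      exact Finset.sum_congr rfl (fun j _ => by ring)
    unfold RV av
    congr 1
    rw [← Equiv.sum_comp hinv.toPerm]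
    refine Finset.sum_congr rfl (fun ε _ => ?_)
    refine iSup_congr (fun i => ?_)
    rw [h1]
    congr 1
    have h2 : (fun k => (Function.Involutive.toPerm _ hinv) ε k == σ k) = ε := hinv ε
    rw [h2]
  · intro n m A c
    unfold nrm
    rw [← av_mul]
    refine av_congr (fun ε => ?_)
    rw [Real.mul_iSup_of_nonneg (abs_nonneg c)]
    refine iSup_congr (fun i => ?_)
    rw [← abs_mul, ← dt_smul]
    rfl
  · intro n m A i
    unfold nrm
    refine av_mono (fun ε => ?_)
    exact le_sup (fun i => |dt ε fun k => A (k, i)|) i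
  · intro n m V M i
    unfold RV
    refine av_mono (fun ε => ?_)
    exact le_sup (fun i => |dt ε (mulV M (wv V i))|) i
  · intro n m V M
    unfold nrm RV
    refine av_mono (fun ε => ?_)
    refine Real.iSup_le (fun i => ?_) (Real.iSup_nonneg (fun i => abs_nonneg _))
    exact le_sup (fun i => |dt ε (mulV M (wv V i))|) (Sum.inr i)

theorem kc (h : S_KH) : S_KC := by
  intro n m hn hm
  refine Metric.isCompact_of_isClosed_isBounded ?_ ?_
  · exact isClosed_le (cont_nrm n m) continuous_const
  · rw [isBounded_iff_forall_norm_le]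
    refine ⟨2, fun A hA => ?_⟩
    rw [pi_norm_le_iff_of_nonneg (by norm_num)]
    rintro ⟨k, i⟩
    rw [Real.norm_eq_abs]
    have hA' : nrm A ≤ 1 := hA
    have h1 := h n (fun k => A (k, i))
    have h2 : av (fun ε => |dt ε fun k => A (k, i)|) ≤ 1 :=
      (rvp.2.2.2.2.2.2.1 n m A i).trans hA'
    have h3 : 0 ≤ av (fun ε => |dt ε fun k => A (k, i)|) := by
      unfold av
      exact div_nonneg (Finset.sum_nonneg (fun ε _ => abs_nonneg _)) (by positivity)
    have h4 : A (k, i) ^ 2 ≤ ∑ k, A (k, i) ^ 2 :=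
      Finset.single_le_sum (f := fun k => A (k, i) ^ 2) (fun k _ => sq_nonneg _)
        (Finset.mem_univ k)
    refine abs_le_of_sq_le_sq ?_ (by norm_num)
    nlinarith

end Pool.Agent.W681.RA_KC
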